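import Mathlib

/-!
# MP_1d68e1_al: cluster algebras with principal coefficients and g-vectors

General definitions, any rank `n`.
-/

set_option autoImplicit false

noncomputable section

open MvPolynomial

namespace Pool.Agent.Lib.MP_1d68e1_al

variable {n : ℕ}

/-- Sign-skew-symmetric: for all `i, j` either `b_ij = b_ji = 0` or `b_ij b_ji < 0`. -/
def SignSkew (B : Matrix (Fin n) (Fin n) ℤ) : Prop :=
  ∀ i j, (B i j = 0 ∧ B j i = 0) ∨ B i j * B j i < 0

/-- Mutation of the exchange matrix at `k`. -/
def mutB (k : Fin n) (B : Matrix (Fin n) (Fin n) ℤ) : Matrix (Fin n) (Fin n) ℤ :=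
  fun i j => if i = k ∨ j = k then -B i j
    else B i j + (|B i k| * B k j + B i k * |B k j|) / 2

/-- Mutation at `k` of the lower half `C` of the extended matrix `(B, C)`. -/
def mutC (k : Fin n) (B C : Matrix (Fin n) (Fin n) ℤ) : Matrix (Fin n) (Fin n) ℤ :=
  fun i j => if j = k then -C i j
    else C i j + (|C i k| * B k j + C i k * |B k j|) / 2

/-- The matrix obtained from `B` by mutating along the word `w` (from left to right). -/
def mutWord (B : Matrix (Fin n) (Fin n) ℤ) (w : List (Fin n)) : Matrix (Fin n) (Fin n) ℤ :=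
  w.foldl (fun M k => mutB k M) B

/-- Totally sign-skew-symmetric: every matrix reachable from `B` by finite sequences of mutations
is sign-skew-symmetric. -/
def TotallySignSkew (B : Matrix (Fin n) (Fin n) ℤ) : Prop :=
  ∀ w : List (Fin n), SignSkew (mutWord B w)

/-- The quiver of `B` (an arrow from `i` to `j` whenever `b_ij > 0`) has no oriented cycle. -/
def Acyclic (B : Matrix (Fin n) (Fin n) ℤ) : Prop :=
  ∀ i, ¬ Relation.TransGen (fun i j => 0 < B i j) i i

/-- The ambient field: the rational functions in `x_i` (the left copy) and `y_j` (the right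
copy). -/
abbrev Amb (n : ℕ) : Type := FractionRing (MvPolynomial (Fin n ⊕ Fin n) ℤ)

/-- The variable `y_j`. -/
def yv (j : Fin n) : Amb n := algebraMap (MvPolynomial (Fin n ⊕ Fin n) ℤ) (Amb n) (X (Sum.inr j))

/-- A labelled seed of the cluster algebra with principal coefficients: the cluster `x`, and the
extended exchange matrix with upper half `B` and lower half `C`. -/
structure Seed (n : ℕ) where
  x : Fin n → Amb n
  B : Matrix (Fin n) (Fin n) ℤ
  C : Matrix (Fin n) (Fin n) ℤ

/-- The initial seed: `x_i`, the matrix `B`, the identity matrix. -/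
def initSeed (B : Matrix (Fin n) (Fin n) ℤ) : Seed n where
  x i := algebraMap (MvPolynomial (Fin n ⊕ Fin n) ℤ) (Amb n) (X (Sum.inl i))
  B := B
  C := 1

/-- Seed mutation at `k`; the new cluster variable `x_k'` is given by the exchange relation
`x_k x_k' = ∏ x_i ^ [b_ik]_+ ∏ y_j ^ [c_jk]_+ + ∏ x_i ^ [-b_ik]_+ ∏ y_j ^ [-c_jk]_+`. -/
def Seed.mutate (s : Seed n) (k : Fin n) : Seed n where
  x := Function.update s.x k
    (((∏ i, s.x i ^ (s.B i k).toNat) * (∏ j, yv j ^ (s.C j k).toNat) +
      (∏ i, s.x i ^ (-s.B i k).toNat) * (∏ j, yv j ^ (-s.C j k).toNat)) / s.x k)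
  B := mutB k s.B
  C := mutC k s.B s.C

/-- The seed obtained from the initial seed by mutating along the word `w`. -/
def seedAt (B : Matrix (Fin n) (Fin n) ℤ) (w : List (Fin n)) : Seed n :=
  w.foldl Seed.mutate (initSeed B)

/-- The grading: `deg x_i = e_i`, and `deg y_j` is minus the `j`-th column of `B`. -/
def wt (B : Matrix (Fin n) (Fin n) ℤ) : Fin n ⊕ Fin n → (Fin n → ℤ)
  | Sum.inl i => Pi.single i 1
  | Sum.inr j => fun i => -B i j

/-- The nonzero element `z` is homogeneous of degree `g` for the grading `wt B`: it is a quotient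
of two nonzero homogeneous polynomials whose degrees differ by `g`. -/
def HomogDeg (B : Matrix (Fin n) (Fin n) ℤ) (z : Amb n) (g : Fin n → ℤ) : Prop :=
  ∃ P Q : MvPolynomial (Fin n ⊕ Fin n) ℤ, ∃ p q : Fin n → ℤ, P ≠ 0 ∧ Q ≠ 0 ∧
    IsWeightedHomogeneous (wt B) P p ∧ IsWeightedHomogeneous (wt B) Q q ∧
    z = algebraMap _ (Amb n) P / algebraMap _ (Amb n) Q ∧ g = p - q

/-- `g` is the g-vector of `z`: the unique degree for which `z` is homogeneous. -/
def IsGVector (B : Matrix (Fin n) (Fin n) ℤ) (z : Amb n) (g : Fin n → ℤ) : Prop :=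
  HomogDeg B z g ∧ ∀ g', HomogDeg B z g' → g' = g

end Pool.Agent.Lib.MP_1d68e1_al
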