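import Pool.Agent.Lib.MP_1d68e1_al.Rank3

/-!
# MP_1d68e1_al: a criterion for mutation-cyclic totally sign-skew-symmetric 3 x 3 matrices

It shows that the class is large and contains many matrices that are not skew-symmetrizable.
-/

set_option autoImplicit false

noncomputable section

namespace Pool.Agent.Lib.MP_1d68e1_al

/-- cyclic, products at least four, and every mutation except possibly the one at `last` makes
the third pair at least as large. -/
structure Grow (B : Matrix (Fin 3) (Fin 3) ℤ) (last : Option (Fin 3)) : Prop where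
  cyc : Cyc3 B
  four : ∀ i j, i ≠ j → 4 ≤ |B i j| * |B j i|
  grow : ∀ i j k, i ≠ j → j ≠ k → i ≠ k → last ≠ some k → 2 * |B i j| ≤ |B i k| * |B k j|

theorem sgn_abs {a b : ℤ} (h : 0 < a * b) : |a| * b = a * |b| := by
  rcases lt_trichotomy a 0 with ha | ha | ha
  · have hb : b < 0 := by
      by_contra h0
      push Not at h0
      have := mul_nonpos_of_nonpos_of_nonneg ha.le h0
      linarith
    rw [abs_of_neg ha, abs_of_neg hb]; ring
  · rw [ha, zero_mul] at h; exact absurd h (lt_irrefl _)
  · have hb : 0 < b := by
      by_contra h0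
      push Not at h0
      have := mul_nonpos_of_nonneg_of_nonpos ha.le h0
      linarith
    rw [abs_of_pos ha, abs_of_pos hb]

/-- the new entry -/
theorem mutB_cyc {B : Matrix (Fin 3) (Fin 3) ℤ} (h : Cyc3 B) {i j k : Fin 3}
    (hij : i ≠ j) (hik : i ≠ k) (hjk : j ≠ k) :
    mutB k B i j = B i j + |B i k| * B k j := by
  have hc := h.cyc i k j hik hjk.symm hij
  unfold mutB
  rw [if_neg (by push Not; exact ⟨hik, hjk⟩), ← sgn_abs hc]
  have : |B i k| * B k j + |B i k| * B k j = (|B i k| * B k j) * 2 := by ring
  rw [this, Int.mul_ediv_cancel _ (by norm_num)]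

theorem abs_add_opp {a b : ℤ} (hab : a * b < 0) (h : 2 * |a| ≤ |b|) :
    |a + b| = |b| - |a| ∧ 0 < (a + b) * b := by
  rcases lt_trichotomy b 0 with hb | hb | hb
  · have ha : 0 < a := by
      by_contra h0
      push Not at h0
      have := mul_nonneg_of_nonpos_of_nonpos h0 hb.le
      linarith
    rw [abs_of_neg hb, abs_of_pos ha] at h ⊢
    have h1 : a + b < 0 := by linarith
    refine ⟨?_, mul_pos_of_neg_of_neg h1 hb⟩
    rw [abs_of_neg h1]; ring
  · rw [hb, mul_zero] at hab; exact absurd hab (lt_irrefl _)
  · have ha : a < 0 := by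
      by_contra h0
      push Not at h0
      have := mul_nonneg h0 hb.le
      linarith
    rw [abs_of_pos hb, abs_of_neg ha] at h ⊢
    have h1 : 0 < a + b := by linarith
    refine ⟨?_, mul_pos h1 hb⟩
    rw [abs_of_pos h1]; ring

/-- new entry, its size and its sign -/
theorem Grow.entry {B : Matrix (Fin 3) (Fin 3) ℤ} {last : Option (Fin 3)} (h : Grow B last)
    {i j k : Fin 3} (hij : i ≠ j) (hik : i ≠ k) (hjk : j ≠ k) (hk : last ≠ some k) :
    |mutB k B i j| = |B i k| * |B k j| - |B i j| ∧ 0 < mutB k B i j * B k j ∧
      mutB k B i j * B i j < 0 := by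
  have hg := h.grow i j k hij hjk hik hk
  have e := mutB_cyc h.cyc hij hik hjk
  have hopp : B i j * B k j < 0 := by
    have c1 := h.cyc.cyc k j i hjk.symm hij.symm hik.symm
    have o1 := h.cyc.opp j i hij.symm
    have h3 : (B k j) * B j i > 0 := c1
    have h4 := s_pn (t := B k j) (a := B j i) (b := B i j) h3 o1
    rw [mul_comm]; exact h4
  have hneg : B i j * (|B i k| * B k j) < 0 := by
    have h5 := h.cyc.abs_pos hik
    have : B i j * (|B i k| * B k j) = |B i k| * (B i j * B k j) := by ring
    rw [this]
    exact mul_neg_of_pos_of_neg (by linarith) hopp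
  have habs : |(|B i k| * B k j)| = |B i k| * |B k j| := by rw [abs_mul, abs_abs]
  obtain ⟨h1, h2⟩ := abs_add_opp hneg (by rw [habs]; exact hg)
  have h3 : 0 < mutB k B i j * B k j := by
    rw [e]
    have h5 := h.cyc.abs_pos hik
    have h6 : (B i j + |B i k| * B k j) * (|B i k| * B k j) =
        |B i k| * ((B i j + |B i k| * B k j) * B k j) := by ring
    rw [h6] at h2
    exact pos_of_mul_pos_of_pos_left' h2 (by linarith)
  refine ⟨?_, h3, ?_⟩
  · rw [e, h1, habs]
  · exact s_pn h3 (by rw [mul_comm]; exact hopp)
where
  pos_of_mul_pos_of_pos_left' {a b : ℤ} (h : 0 < a * b) (ha : 0 < a) : 0 < b :=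
    (mul_pos_iff_of_pos_left ha).mp h

theorem Grow.mutate {B : Matrix (Fin 3) (Fin 3) ℤ} {last : Option (Fin 3)} (h : Grow B last)
    (k : Fin 3) (hk : last ≠ some k) : Grow (mutB k B) (some k) := by
  refine ⟨⟨?_, ?_, ?_⟩, ?_, ?_⟩
  · intro i j hij
    by_cases hi : i = k
    · subst hi
      rw [mutB_left, mutB_right]
      have := h.cyc.opp i j hij
      linarith
    · by_cases hj : j = k
      · subst hj
        rw [mutB_right, mutB_left]
        have := h.cyc.opp i j hij
        linarith
      · obtain ⟨_, _, a3⟩ := h.entry hij hi hj hk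
        obtain ⟨_, _, b3⟩ := h.entry hij.symm hj hi hk
        have o := h.cyc.opp i j hij
        -- signs
        have h1 : 0 < mutB k B i j * B j i := s_nn a3 o
        have h2 : mutB k B i j * mutB k B j i < 0 := by
          have := s_pn (t := mutB k B i j) (a := B j i) (b := mutB k B j i) h1
            (by rw [mul_comm]; exact b3)
          exact this
        exact h2
  · intro i j l hij hjl hil
    by_cases hi : i = k
    · subst hi
      obtain ⟨_, a2, _⟩ := h.entry hjl hij.symm hil.symm hk
      -- `mutB i B j l * B i l > 0`, want `0 < -B i j * mutB i B j l`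
      rw [mutB_left]
      have c1 := h.cyc.cyc l i j hil.symm hij hjl.symm
      have o1 := h.cyc.opp i l hil
      -- sign of `B i j` = sign of `B l i` = - sign of `B i l`
      have h1 : 0 < mutB i B j l * B i l := a2
      have h2 : mutB i B j l * B l i < 0 := s_pn h1 o1
      have h3 : mutB i B j l * B i j < 0 := s_np h2 c1
      linarith
    · by_cases hj : j = k
      · subst hj
        rw [mutB_right, mutB_left]
        have := h.cyc.cyc i j l hij hjl hil
        linarith
      · have hl : l = k := by
          by_contra h0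
          have := fin3_last i j l k hij hil hjl (Ne.symm hi) (Ne.symm hj)
          exact h0 this.symm
        subst hl
        obtain ⟨_, a2, _⟩ := h.entry hij hil hjl hk
        rw [mutB_right]
        -- `0 < mutB l B i j * B l j`; `B l j * B j l < 0`
        have o1 := h.cyc.opp l j hjl.symm
        have := s_pn a2 o1
        linarith
  · intro i
    by_cases hi : i = k
    · subst hi
      rw [mutB_left, h.cyc.diag, neg_zero]
    · rw [mutB_ne _ hi hi, h.cyc.diag]
      have o := h.cyc.opp i k hi
      rcases lt_trichotomy (B i k) 0 with h1 | h1 | h1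
      · have h2 : 0 < B k i := by
          by_contra h0
          push Not at h0
          have := mul_nonneg_of_nonpos_of_nonpos h1.le h0
          linarith
        rw [max_eq_right h1.le, max_eq_right (by linarith)]; ring
      · rw [h1, zero_mul] at o; exact absurd o (lt_irrefl _)
      · have h2 : B k i < 0 := by
          by_contra h0
          push Not at h0
          have := mul_nonneg h1.le h0
          linarith
        rw [max_eq_left h1.le, max_eq_left (by linarith)]; ring
  · intro i j hij
    by_cases hi : i = k
    · subst hi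
      rw [mutB_left, mutB_right, abs_neg, abs_neg]
      exact h.four i j hij
    · by_cases hj : j = k
      · subst hj
        rw [mutB_right, mutB_left, abs_neg, abs_neg]
        exact h.four i j hij
      · obtain ⟨a1, _, _⟩ := h.entry hij hi hj hk
        obtain ⟨b1, _, _⟩ := h.entry hij.symm hj hi hk
        have g1 := h.grow i j k hij hj hi hk
        have g2 := h.grow j i k hij.symm hi hj hk
        have f := h.four i j hij
        have e1 : |B i j| ≤ |mutB k B i j| := by rw [a1]; linarith
        have e2 : |B j i| ≤ |mutB k B j i| := by rw [b1]; linarith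
        exact f.trans (mul_le_mul e1 e2 (abs_nonneg _) (abs_nonneg _))
  · intro i j l hij hjl hil hlk
    have hlk' : l ≠ k := fun h0 => hlk (by rw [h0])
    -- one of `i`, `j` is `k`
    by_cases hi : i = k
    · subst hi
      rw [mutB_left, mutB_left, abs_neg, abs_neg]
      obtain ⟨a1, _, _⟩ := h.entry hjl.symm hil.symm hij.symm hk
      rw [a1]
      have g := h.grow l j i hjl.symm hij.symm hil.symm hk
      have f := h.four i l hil
      have n1 := abs_nonneg (B i l)
      have n2 := abs_nonneg (B i j)
      have e1 : |B i l| * (2 * |B l j|) ≤ |B i l| * (|B l i| * |B i j|) :=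
        mul_le_mul_of_nonneg_left g n1
      have e2 : 4 * |B i j| ≤ (|B i l| * |B l i|) * |B i j| := mul_le_mul_of_nonneg_right f n2
      nlinarith
    · have hj : j = k := by
        by_contra h0
        have := fin3_last i j l k hij hil hjl (Ne.symm hi) (Ne.symm h0)
        exact hlk' this.symm
      subst hj
      rw [mutB_right, mutB_right, abs_neg, abs_neg]
      obtain ⟨a1, _, _⟩ := h.entry hil hij hjl.symm hk
      rw [a1]
      have g := h.grow i l j hil hjl.symm hij hk
      have f := h.four l j hjl.symm
      have n1 := abs_nonneg (B l j)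
      have n2 := abs_nonneg (B i j)
      have e1 : (2 * |B i l|) * |B l j| ≤ (|B i j| * |B j l|) * |B l j| :=
        mul_le_mul_of_nonneg_right g n1
      have e2 : |B i j| * 4 ≤ |B i j| * (|B l j| * |B j l|) := mul_le_mul_of_nonneg_left f n2
      nlinarith

theorem Cyc3.signSkew {B : Matrix (Fin 3) (Fin 3) ℤ} (h : Cyc3 B) : SignSkew B := by
  intro i j
  by_cases hij : i = j
  · subst hij; left; exact ⟨h.diag i, h.diag i⟩
  · right; exact h.opp i j hij

theorem Cyc3.not_acyclic {B : Matrix (Fin 3) (Fin 3) ℤ} (h : Cyc3 B) : ¬ Acyclic B := by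
  intro ha
  have c1 := h.cyc 0 1 2 (by decide) (by decide) (by decide)
  have c2 := h.cyc 1 2 0 (by decide) (by decide) (by decide)
  have o1 := h.opp 0 1 (by decide)
  have o2 := h.opp 1 2 (by decide)
  have o3 := h.opp 2 0 (by decide)
  have hne : B 0 1 ≠ 0 := by
    intro h0
    rw [h0, zero_mul] at c1
    exact lt_irrefl _ c1
  rcases lt_or_gt_of_ne hne with h1 | h1
  · -- negative
    have e1 : (1 : ℤ) * B 0 1 < 0 := by rw [one_mul]; exact h1
    have e2 := s_np e1 c1
    have e3 := s_np e2 c2
    have f1 := s_nn e1 o1
    have f2 := s_nn e2 o2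
    have f3 := s_nn e3 o3
    rw [one_mul] at f1 f2 f3
    exact ha 0 (Relation.TransGen.tail (Relation.TransGen.tail (Relation.TransGen.single f3) f2) f1)
  · have e1 : (0 : ℤ) < 1 * B 0 1 := by rw [one_mul]; exact h1
    have e2 := s_pp e1 c1
    have e3 := s_pp e2 c2
    rw [one_mul] at e2 e3
    exact ha 0 (Relation.TransGen.tail (Relation.TransGen.tail (Relation.TransGen.single h1) e2) e3)

/-- the matrices reached from `B0` along reduced words, with the last letter -/
inductive RMat (B0 : Matrix (Fin 3) (Fin 3) ℤ) :
    Matrix (Fin 3) (Fin 3) ℤ → Option (Fin 3) → Prop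
  | base : RMat B0 B0 none
  | step {B last} (h : RMat B0 B last) (k : Fin 3) (hk : last ≠ some k) :
      RMat B0 (mutB k B) (some k)

theorem RMat.grow {B0 B : Matrix (Fin 3) (Fin 3) ℤ} {last : Option (Fin 3)}
    (h0 : Grow B0 none) (h : RMat B0 B last) : Grow B last := by
  induction h with
  | base => exact h0
  | step _ k hk ih => exact ih.mutate k hk

theorem RMat.next {B0 B : Matrix (Fin 3) (Fin 3) ℤ} {last : Option (Fin 3)}
    (h : RMat B0 B last) (k : Fin 3) : ∃ last', RMat B0 (mutB k B) last' := by
  by_cases hk : last = some k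
  · cases h with
    | base => simp at hk
    | @step B' last' h' k' hk' =>
      have hkk : k' = k := by simpa using hk
      subst hkk
      rw [mutB_mutB]
      exact ⟨_, h'⟩
  · exact ⟨_, RMat.step h k hk⟩

/-- **Criterion.** A cyclic matrix with products `|b_ij b_ji| ≥ 4` and
`2 |b_ij| ≤ |b_ik| |b_kj|` is totally sign-skew-symmetric and mutation-cyclic. -/
theorem grow_class (B : Matrix (Fin 3) (Fin 3) ℤ) (h : Grow B none) :
    TotallySignSkew B ∧ ∀ w, ¬ Acyclic (mutWord B w) := by
  have key : ∀ w : List (Fin 3), ∃ last, RMat B (mutWord B w) last := by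
    intro w
    induction w using List.reverseRecOn with
    | nil => exact ⟨none, RMat.base⟩
    | append_singleton w k ih =>
      obtain ⟨last, hl⟩ := ih
      unfold mutWord at hl ⊢
      rw [List.foldl_append, List.foldl_cons, List.foldl_nil]
      exact hl.next k
  constructor
  · intro w
    obtain ⟨last, h1⟩ := key w
    exact (h1.grow h).cyc.signSkew
  · intro w
    obtain ⟨last, h1⟩ := key w
    exact (h1.grow h).cyc.not_acyclic

/-- an example which is not skew-symmetrizable -/
def exB : Matrix (Fin 3) (Fin 3) ℤ := !![0, 3, -4; -3, 0, 3; 3, -3, 0]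

theorem exB_grow : Grow exB none := by
  refine ⟨⟨?_, ?_, ?_⟩, ?_, ?_⟩
  · decide
  · decide
  · decide
  · decide
  · intro i j k h1 h2 h3 _
    revert i j k
    decide

/-- the example belongs to the class of the theorem -/
theorem exB_class : TotallySignSkew exB ∧ ∀ w, ¬ Acyclic (mutWord exB w) :=
  grow_class exB exB_grow

/-- `B` is skew-symmetrizable: `D B` is skew-symmetric for a diagonal matrix `D` with positive
integer entries. -/
def SkewSymmetrizable {n : ℕ} (B : Matrix (Fin n) (Fin n) ℤ) : Prop :=
  ∃ d : Fin n → ℤ, (∀ i, 0 < d i) ∧ ∀ i j, d i * B i j = -(d j * B j i)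

/-- and it is not skew-symmetrizable -/
theorem exB_not_skewSymmetrizable : ¬ SkewSymmetrizable exB := by
  rintro ⟨d, hd, h⟩
  have h01 := h 0 1
  have h12 := h 1 2
  have h20 := h 2 0
  have e01 : exB 0 1 = 3 := by decide
  have e10 : exB 1 0 = -3 := by decide
  have e12 : exB 1 2 = 3 := by decide
  have e21 : exB 2 1 = -3 := by decide
  have e20 : exB 2 0 = 3 := by decide
  have e02 : exB 0 2 = -4 := by decide
  rw [e01, e10] at h01
  rw [e12, e21] at h12
  rw [e20, e02] at h20
  have := hd 0
  omega

end Pool.Agent.Lib.MP_1d68e1_al
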