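import Pool.Agent.Lib.MP_1d68e1_al.Red

/-!
# MP_1d68e1_al: abundant matrices of any rank whose oriented triangles do not shrink
-/

set_option autoImplicit false

noncomputable section

namespace Pool.Agent.Lib.MP_1d68e1_al

variable {n : ℕ}

/-- State of the exchange matrix along reduced words; `last` is the last letter. -/
structure St (B : Matrix (Fin n) (Fin n) ℤ) (last : Option (Fin n)) : Prop where
  diag : ∀ i, B i i = 0
  four : ∀ i j, i ≠ j → B i j * B j i ≤ -4
  grow : ∀ i j k, last ≠ some k → 0 < B i j → 0 < B j k → 0 < B k i →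
    2 * |B i j| ≤ |B i k| * |B k j| ∧ 2 * |B j i| ≤ |B j k| * |B k i|
  closed : ∀ l, last = some l → ∀ i j, 0 < B i l → 0 < B l j → 0 < B j i

theorem neg_of_four {a b : ℤ} (h : a * b ≤ -4) (ha : 0 < a) : b < 0 := by
  by_contra h0
  push Not at h0
  have := mul_nonneg ha.le h0
  linarith

theorem pos_of_four {a b : ℤ} (h : a * b ≤ -4) (ha : a < 0) : 0 < b := by
  by_contra h0
  push Not at h0
  have := mul_nonneg_of_nonpos_of_nonpos ha.le h0
  linarith

theorem ne_of_four {a b : ℤ} (h : a * b ≤ -4) : a ≠ 0 := by
  rintro rfl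
  rw [zero_mul] at h
  norm_num at h

theorem abs_four {a b : ℤ} (h : a * b ≤ -4) : 4 ≤ |a| * |b| := by
  rw [← abs_mul, abs_of_neg (by linarith)]
  linarith

theorem mutB_same {k i j : Fin n} (B : Matrix (Fin n) (Fin n) ℤ) (hi : i ≠ k) (hj : j ≠ k)
    (h : B i k * B k j ≤ 0) : mutB k B i j = B i j := by
  rw [mutB_ne B hi hj]
  rcases le_total 0 (B i k) with h1 | h1
  · rcases le_total 0 (B k j) with h2 | h2
    · have h3 : B i k * B k j = 0 := le_antisymm h (mul_nonneg h1 h2)
      rw [max_eq_left h1, max_eq_right (by linarith), h3]; ring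
    · rw [max_eq_left h1, max_eq_left (by linarith)]; ring
  · rcases le_total 0 (B k j) with h2 | h2
    · rw [max_eq_right h1, max_eq_right (by linarith)]; ring
    · have h3 : B i k * B k j = 0 := le_antisymm h (mul_nonneg_of_nonpos_of_nonpos h1 h2)
      rw [max_eq_right h1, max_eq_left (by linarith)]
      linarith

theorem mutB_pp {k i j : Fin n} (B : Matrix (Fin n) (Fin n) ℤ) (hi : i ≠ k) (hj : j ≠ k)
    (h1 : 0 < B i k) (h2 : 0 < B k j) : mutB k B i j = B i j + B i k * B k j := by
  rw [mutB_ne B hi hj, max_eq_left h1.le, max_eq_right (by linarith)]; ring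

theorem mutB_nn {k i j : Fin n} (B : Matrix (Fin n) (Fin n) ℤ) (hi : i ≠ k) (hj : j ≠ k)
    (h1 : B i k < 0) (h2 : B k j < 0) : mutB k B i j = B i j - B i k * B k j := by
  rw [mutB_ne B hi hj, max_eq_right h1.le, max_eq_left (by linarith)]; ring

theorem St.ne {B : Matrix (Fin n) (Fin n) ℤ} {last : Option (Fin n)} (h : St B last)
    {i j : Fin n} (hij : 0 < B i j) : i ≠ j := by
  rintro rfl
  rw [h.diag] at hij
  exact lt_irrefl _ hij

theorem St.neg {B : Matrix (Fin n) (Fin n) ℤ} {last : Option (Fin n)} (h : St B last)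
    {i j : Fin n} (hij : 0 < B i j) : B j i < 0 :=
  neg_of_four (h.four i j (h.ne hij)) hij

theorem St.pos {B : Matrix (Fin n) (Fin n) ℤ} {last : Option (Fin n)} (h : St B last)
    {i j : Fin n} (hij : B i j < 0) : 0 < B j i := by
  have hne : i ≠ j := by
    rintro rfl
    rw [h.diag] at hij
    exact lt_irrefl _ hij
  exact pos_of_four (h.four i j hne) hij

theorem St.dich {B : Matrix (Fin n) (Fin n) ℤ} {last : Option (Fin n)} (h : St B last)
    {i j : Fin n} (hij : i ≠ j) : 0 < B i j ∨ 0 < B j i := by
  have h1 := ne_of_four (h.four i j hij)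
  rcases lt_or_gt_of_ne h1 with h2 | h2
  · right; exact h.pos h2
  · left; exact h2

/-- the entries between the start and the end of a path through `k` -/
theorem St.path {B : Matrix (Fin n) (Fin n) ℤ} {last : Option (Fin n)} (h : St B last)
    {i j k : Fin n} (hk : last ≠ some k) (h1 : 0 < B i k) (h2 : 0 < B k j) :
    (|B i j| ≤ mutB k B i j ∧ |B i k| * |B k j| ≤ 2 * mutB k B i j) ∧
    (|B j i| ≤ -mutB k B j i ∧ |B j k| * |B k i| ≤ 2 * (-mutB k B j i)) := by
  have hik := h.ne h1
  have hkj := h.ne h2
  have n1 := h.neg h1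
  have n2 := h.neg h2
  have hij : i ≠ j := by
    rintro rfl
    linarith
  have e1 := mutB_pp B hik hkj.symm h1 h2
  have e2 := mutB_nn B hkj.symm hik n2 n1
  have p1 : |B i k| * |B k j| = B i k * B k j := by rw [abs_of_pos h1, abs_of_pos h2]
  have p2 : |B j k| * |B k i| = B j k * B k i := by rw [abs_of_neg n2, abs_of_neg n1]; ring
  have q1 := mul_pos h1 h2
  have q2 := mul_pos_of_neg_of_neg n2 n1
  rw [e1, e2, p1, p2]
  rcases h.dich hij with h3 | h3
  · have n3 := h.neg h3
    rw [abs_of_pos h3, abs_of_neg n3]
    refine ⟨⟨?_, ?_⟩, ?_, ?_⟩ <;> linarith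
  · have n3 := h.neg h3
    obtain ⟨g1, g2⟩ := h.grow j i k hk h3 h1 h2
    rw [p2, abs_of_pos h3] at g1
    rw [p1, abs_of_neg n3] at g2
    rw [abs_of_neg n3, abs_of_pos h3]
    refine ⟨⟨?_, ?_⟩, ?_, ?_⟩ <;> linarith

theorem St.path_pos {B : Matrix (Fin n) (Fin n) ℤ} {last : Option (Fin n)} (h : St B last)
    {i j k : Fin n} (hk : last ≠ some k) (h1 : 0 < B i k) (h2 : 0 < B k j) :
    0 < mutB k B i j ∧ mutB k B j i < 0 := by
  obtain ⟨⟨_, a⟩, _, b⟩ := h.path hk h1 h2
  have n1 := h.neg h1
  have n2 := h.neg h2
  have q1 := mul_pos (abs_pos.mpr h1.ne') (abs_pos.mpr h2.ne')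
  have q2 := mul_pos (abs_pos.mpr n2.ne) (abs_pos.mpr n1.ne)
  constructor <;> linarith

/-- otherwise the entry does not change -/
theorem St.nopath {B : Matrix (Fin n) (Fin n) ℤ} {last : Option (Fin n)} (h : St B last)
    {i j k : Fin n} (hi : i ≠ k) (hj : j ≠ k)
    (hs : (0 < B i k ∧ 0 < B j k) ∨ (0 < B k i ∧ 0 < B k j)) : mutB k B i j = B i j := by
  apply mutB_same B hi hj
  rcases hs with ⟨h1, h2⟩ | ⟨h1, h2⟩
  · exact (mul_neg_of_pos_of_neg h1 (h.neg h2)).le
  · exact (mul_neg_of_neg_of_pos (h.neg h1) h2).le

theorem half_four {a b c d : ℤ} (h4 : 4 ≤ |a| * |b|) (h : |b| * |c| ≤ 2 * d) (hd : d ≤ |d|) :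
    2 * |c| ≤ |a| * |d| := by
  have h1 : |a| * (|b| * |c|) ≤ |a| * (2 * d) := mul_le_mul_of_nonneg_left h (abs_nonneg _)
  have h2 : |a| * d ≤ |a| * |d| := mul_le_mul_of_nonneg_left hd (abs_nonneg _)
  have h3 : 4 * |c| ≤ (|a| * |b|) * |c| := mul_le_mul_of_nonneg_right h4 (abs_nonneg _)
  nlinarith

theorem St.mutate {B : Matrix (Fin n) (Fin n) ℤ} {last : Option (Fin n)} (h : St B last)
    (k : Fin n) (hk : last ≠ some k) : St (mutB k B) (some k) := by
  refine ⟨?_, ?_, ?_, ?_⟩
  · intro i
    by_cases hi : i = k
    · subst hi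
      rw [mutB_left, h.diag, neg_zero]
    · rw [mutB_same B hi hi, h.diag]
      have := h.four i k hi
      linarith
  · intro i j hij
    by_cases hi : i = k
    · subst hi
      rw [mutB_left, mutB_right]
      have := h.four i j hij
      linarith
    · by_cases hj : j = k
      · subst hj
        rw [mutB_right, mutB_left]
        have := h.four i j hij
        linarith
      · have f := abs_four (h.four i j hij)
        have f' := abs_four (h.four j i hij.symm)
        rcases h.dich hi with h1 | h1 <;> rcases h.dich hj with h2 | h2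
        · rw [h.nopath hi hj (Or.inl ⟨h1, h2⟩), h.nopath hj hi (Or.inl ⟨h2, h1⟩)]
          exact h.four i j hij
        · obtain ⟨⟨a, _⟩, b, _⟩ := h.path hk h1 h2
          have := mul_le_mul a b (abs_nonneg _) (le_trans (abs_nonneg _) a)
          linarith
        · obtain ⟨⟨a, _⟩, b, _⟩ := h.path hk h2 h1
          have := mul_le_mul a b (abs_nonneg _) (le_trans (abs_nonneg _) a)
          linarith
        · rw [h.nopath hi hj (Or.inr ⟨h1, h2⟩), h.nopath hj hi (Or.inr ⟨h2, h1⟩)]
          exact h.four i j hij
  · intro i j m hm h1 h2 h3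
    have hmk : m ≠ k := fun h0 => hm (by rw [h0])
    by_cases hi : i = k
    · subst hi
      have hj : j ≠ i := by
        rintro rfl
        rw [mutB_left, h.diag, neg_zero] at h1
        exact lt_irrefl _ h1
      rw [mutB_left] at h1
      rw [mutB_right] at h3
      have a1 : 0 < B j i := h.pos (by linarith)
      have a2 : 0 < B i m := h.pos (by linarith)
      obtain ⟨⟨_, a⟩, _, b⟩ := h.path hk a1 a2
      rw [mutB_left, mutB_left, mutB_right, mutB_right, abs_neg, abs_neg, abs_neg, abs_neg]
      constructor
      · have := half_four (abs_four (h.four i m hmk.symm)) b (le_abs_self _)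
        rw [abs_neg] at this
        exact this
      · have := half_four (a := B m i) (b := B i m) (c := B j i) (d := mutB i B j m)
          (abs_four (h.four m i hmk)) (by linarith) (le_abs_self _)
        linarith
    · by_cases hj : j = k
      · subst hj
        rw [mutB_right] at h1
        rw [mutB_left] at h2
        have a1 : 0 < B j i := h.pos (by linarith)
        have a2 : 0 < B m j := h.pos (by linarith)
        obtain ⟨⟨_, a⟩, _, b⟩ := h.path hk a2 a1
        rw [mutB_right, mutB_left, mutB_right, mutB_left, abs_neg, abs_neg, abs_neg, abs_neg]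
        constructor
        · have := half_four (a := B m j) (b := B j m) (c := B i j) (d := -mutB j B i m)
            (abs_four (h.four m j hmk)) (by linarith) (le_abs_self _)
          rw [abs_neg] at this
          linarith
        · exact half_four (abs_four (h.four j m hmk.symm)) a (le_abs_self _)
      · -- none of them is `k`
        have c1 : ¬ (0 < B k i ∧ 0 < B j k) := by
          rintro ⟨x, y⟩
          have := (h.path_pos hk y x).2
          linarith
        have c2 : ¬ (0 < B k j ∧ 0 < B m k) := by
          rintro ⟨x, y⟩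
          have := (h.path_pos hk y x).2
          linarith
        have c3 : ¬ (0 < B k m ∧ 0 < B i k) := by
          rintro ⟨x, y⟩
          have := (h.path_pos hk y x).2
          linarith
        have hall : (0 < B i k ∧ 0 < B j k ∧ 0 < B m k) ∨ (0 < B k i ∧ 0 < B k j ∧ 0 < B k m) := by
          rcases h.dich hi with x | x
          · have y : 0 < B m k := by
              rcases h.dich hmk with y | y
              · exact y
              · exact absurd ⟨y, x⟩ c3
            have z : 0 < B j k := by
              rcases h.dich hj with z | z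
              · exact z
              · exact absurd ⟨z, y⟩ c2
            exact Or.inl ⟨x, z, y⟩
          · have y : 0 < B k j := by
              rcases h.dich hj with y | y
              · exact absurd ⟨x, y⟩ c1
              · exact y
            have z : 0 < B k m := by
              rcases h.dich hmk with z | z
              · exact absurd ⟨y, z⟩ c2
              · exact z
            exact Or.inr ⟨x, y, z⟩
        have e : ∀ x y : Fin n, (x = i ∨ x = j ∨ x = m) → (y = i ∨ y = j ∨ y = m) →
            mutB k B x y = B x y := by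
          intro x y hx hy
          rcases hall with ⟨a, b, c⟩ | ⟨a, b, c⟩
          · have gx : 0 < B x k := by
              rcases hx with rfl | rfl | rfl <;> assumption
            have gy : 0 < B y k := by
              rcases hy with rfl | rfl | rfl <;> assumption
            exact h.nopath (h.ne gx) (h.ne gy) (Or.inl ⟨gx, gy⟩)
          · have gx : 0 < B k x := by
              rcases hx with rfl | rfl | rfl <;> assumption
            have gy : 0 < B k y := by
              rcases hy with rfl | rfl | rfl <;> assumption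
            exact h.nopath (h.ne gx).symm (h.ne gy).symm (Or.inr ⟨gx, gy⟩)
        rw [e i j (by tauto) (by tauto)] at h1 ⊢
        rw [e j m (by tauto) (by tauto)] at h2 ⊢
        rw [e m i (by tauto) (by tauto)] at h3 ⊢
        rw [e i m (by tauto) (by tauto), e m j (by tauto) (by tauto), e j i (by tauto) (by tauto)]
        refine h.grow i j m ?_ h1 h2 h3
        intro hl
        rcases hall with ⟨a, b, c⟩ | ⟨a, b, c⟩
        · -- `j → m → k`
          have := h.neg (h.closed m hl j k h2 c)
          linarith
        · have := h.neg (h.closed m hl k i c h3)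
          linarith
  · intro l hl i j h1 h2
    have hkl : k = l := Option.some.inj hl
    subst hkl
    rw [mutB_right] at h1
    rw [mutB_left] at h2
    have a1 : 0 < B k i := h.pos (by linarith)
    have a2 : 0 < B j k := h.pos (by linarith)
    exact (h.path_pos hk a2 a1).1

theorem St.signSkew {B : Matrix (Fin n) (Fin n) ℤ} {last : Option (Fin n)} (h : St B last) :
    SignSkew B := by
  intro i j
  by_cases hij : i = j
  · subst hij; left; exact ⟨h.diag i, h.diag i⟩
  · right
    have := h.four i j hij
    linarith

end Pool.Agent.Lib.MP_1d68e1_al
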