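import Pool.Agent.Lib.MP_1d68e1_al.General

/-!
# MP_1d68e1_al: sign-coherence along reduced words, any rank
-/

set_option autoImplicit false

noncomputable section

namespace Pool.Agent.Lib.MP_1d68e1_al

variable {n : ℕ}

theorem sgn_abs' {t : ℤ} (ht : t = 1 ∨ t = -1) {b : ℤ} (h : 0 < t * b) : |b| = t * b := by
  rcases ht with rfl | rfl
  · rw [one_mul] at h ⊢; exact abs_of_pos h
  · rw [abs_of_neg (by linarith)]; ring

theorem mutC_sgn {k : Fin n} (B C : Matrix (Fin n) (Fin n) ℤ) (t : ℤ) (ht : t = 1 ∨ t = -1)
    (m : Fin n) (hs : 0 ≤ t * C m k) {j : Fin n} (hj : j ≠ k) :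
    mutC k B C m j = C m j + C m k * max (t * B k j) 0 := by
  rw [mutC_ne _ _ hj]
  rcases ht with rfl | rfl
  · rw [one_mul] at hs
    rw [max_eq_left hs, one_mul]
    have h2 := max_sub_max (B k j)
    linear_combination (C m k) * (-h2)
  · have hs' : C m k ≤ 0 := by linarith
    rw [max_eq_right hs']
    have : (-1 : ℤ) * B k j = -B k j := by ring
    rw [this]; ring

theorem St.neg_t {B : Matrix (Fin n) (Fin n) ℤ} {last : Option (Fin n)} (h : St B last)
    {t : ℤ} (ht : t = 1 ∨ t = -1) {i j : Fin n} (hij : 0 < t * B i j) : t * B j i < 0 := by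
  rcases ht with rfl | rfl
  · have := h.neg (i := i) (j := j) (by linarith); linarith
  · have := h.pos (i := i) (j := j) (by linarith); linarith

theorem St.pos_t {B : Matrix (Fin n) (Fin n) ℤ} {last : Option (Fin n)} (h : St B last)
    {t : ℤ} (ht : t = 1 ∨ t = -1) {i j : Fin n} (hij : t * B i j < 0) : 0 < t * B j i := by
  rcases ht with rfl | rfl
  · have := h.pos (i := i) (j := j) (by linarith); linarith
  · have := h.neg (i := i) (j := j) (by linarith); linarith

theorem St.dich_t {B : Matrix (Fin n) (Fin n) ℤ} {last : Option (Fin n)} (h : St B last)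
    {t : ℤ} (ht : t = 1 ∨ t = -1) {i j : Fin n} (hij : i ≠ j) (h0 : ¬ 0 < t * B i j) :
    0 < t * B j i := by
  rcases ht with rfl | rfl
  · rcases h.dich hij with h1 | h1 <;> linarith
  · rcases h.dich hij with h1 | h1
    · have := h.neg h1; linarith
    · have := h.neg h1; linarith

theorem St.path_t {B : Matrix (Fin n) (Fin n) ℤ} {last : Option (Fin n)} (h : St B last)
    {t : ℤ} (ht : t = 1 ∨ t = -1) {i j k : Fin n} (hk : last ≠ some k) (h1 : 0 < t * B i k)
    (h2 : 0 < t * B k j) : 0 < t * mutB k B i j := by
  rcases ht with rfl | rfl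
  · have := (h.path_pos (i := i) (j := j) hk (by linarith) (by linarith)).1
    linarith
  · have a1 := h.pos (i := i) (j := k) (by linarith)
    have a2 := h.pos (i := k) (j := j) (by linarith)
    have := (h.path_pos hk a2 a1).2
    linarith

theorem St.closed_t {B : Matrix (Fin n) (Fin n) ℤ} {last : Option (Fin n)} (h : St B last)
    {t : ℤ} (ht : t = 1 ∨ t = -1) {i j l : Fin n} (hl : last = some l) (h1 : 0 < t * B i l)
    (h2 : 0 < t * B l j) : 0 < t * B j i := by
  rcases ht with rfl | rfl
  · have := h.closed l hl i j (by linarith) (by linarith)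
    linarith
  · have a1 := h.pos (i := i) (j := l) (by linarith)
    have a2 := h.pos (i := l) (j := j) (by linarith)
    have := h.neg (h.closed l hl j i a2 a1)
    linarith

theorem St.nopath_t {B : Matrix (Fin n) (Fin n) ℤ} {last : Option (Fin n)} (h : St B last)
    {t : ℤ} (ht : t = 1 ∨ t = -1) {i j k : Fin n} (hi : i ≠ k) (hj : j ≠ k)
    (h1 : 0 < t * B i k) (h2 : 0 < t * B j k) : mutB k B i j = B i j := by
  rcases ht with rfl | rfl
  · exact h.nopath hi hj (Or.inl ⟨by linarith, by linarith⟩)
  · exact h.nopath hi hj (Or.inr ⟨h.pos (by linarith), h.pos (by linarith)⟩)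

/-- The invariant of the lower half: signs `s` of the columns; no active pair avoids the last
letter; the last column is small compared with the active ones. -/
structure CI (B C : Matrix (Fin n) (Fin n) ℤ) (last : Option (Fin n)) (s : Fin n → ℤ) :
    Prop where
  sgn : ∀ i, s i = 1 ∨ s i = -1
  nonneg : ∀ i m, 0 ≤ s i * C m i
  inactive : ∀ i j, last ≠ some i → last ≠ some j → s i = -s j → ¬ 0 < s i * B i j
  small : ∀ l, last = some l → ∀ q, s q = -s l → 0 < s q * B q l →
    ∀ m, 2 * (s l * C m l) ≤ |B q l| * (s q * C m q)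
  opp : ∀ l, last = some l → ∀ i, 0 < s l * B l i → s i = -s l

theorem CI.init (B : Matrix (Fin n) (Fin n) ℤ) : CI B 1 none (fun _ => 1) where
  sgn := fun _ => Or.inl rfl
  nonneg := by
    intro i m
    rw [Matrix.one_apply]
    split_ifs <;> norm_num
  inactive := by
    intro i j _ _ h
    norm_num at h
  small := by
    intro l hl
    simp at hl
  opp := by
    intro l hl
    simp at hl

/-- the new signs -/
def newS (B : Matrix (Fin n) (Fin n) ℤ) (s : Fin n → ℤ) (k : Fin n) : Fin n → ℤ :=
  fun j => if j = k then -s k else if 0 < s k * B k j then s k else s j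

theorem CI.star {B C : Matrix (Fin n) (Fin n) ℤ} {last : Option (Fin n)} {s : Fin n → ℤ}
    (h : CI B C last s) (k : Fin n) (hk : last ≠ some k) {j : Fin n} (hj : j ≠ k)
    (h0 : 0 < s k * B k j) (m : Fin n) :
    0 ≤ s k * mutC k B C m j ∧ |B k j| * (s k * C m k) ≤ 2 * (s k * mutC k B C m j) := by
  have e := mutC_sgn B C (s k) (h.sgn k) m (h.nonneg k m) hj
  rw [max_eq_left h0.le, ← sgn_abs' (h.sgn k) h0] at e
  have hc := h.nonneg k m
  have hp : 0 ≤ |B k j| * (s k * C m k) := mul_nonneg (abs_nonneg _) hc
  have e2 : s k * mutC k B C m j = s k * C m j + |B k j| * (s k * C m k) := by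
    rw [e]; ring
  have hcase : s j = s k ∨ s k = -s j := by
    rcases h.sgn k with a | a <;> rcases h.sgn j with b | b
    · left; rw [a, b]
    · right; rw [a, b]; norm_num
    · right; rw [a, b]
    · left; rw [a, b]
  rcases hcase with hs | hs
  · have := h.nonneg j m
    rw [hs] at this
    constructor <;> linarith
  · have hlast : last = some j := by
      by_contra hne
      exact h.inactive k j hk hne hs h0
    have := h.small j hlast k hs h0 m
    have e3 : s j * C m j = -(s k * C m j) := by rw [hs]; ring
    rw [e3] at this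
    constructor <;> linarith

theorem CI.mutate {B C : Matrix (Fin n) (Fin n) ℤ} {last : Option (Fin n)} {s : Fin n → ℤ}
    (hB : St B last) (h : CI B C last s) (k : Fin n) (hk : last ≠ some k) :
    CI (mutB k B) (mutC k B C) (some k) (newS B s k) := by
  have hB' := hB.mutate k hk
  have ht := h.sgn k
  have htne : s k ≠ -s k := by
    intro h0
    rcases ht with a | a <;> rw [a] at h0 <;> norm_num at h0
  have sk : newS B s k k = -s k := by unfold newS; rw [if_pos rfl]
  have s1 : ∀ j, j ≠ k → 0 < s k * B k j → newS B s k j = s k := by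
    intro j hj h0
    unfold newS
    rw [if_neg hj, if_pos h0]
  have s2 : ∀ j, j ≠ k → ¬ 0 < s k * B k j → newS B s k j = s j := by
    intro j hj h0
    unfold newS
    rw [if_neg hj, if_neg h0]
  have hsgn : ∀ i, newS B s k i = 1 ∨ newS B s k i = -1 := by
    intro i
    by_cases hi : i = k
    · subst hi
      rw [sk]
      rcases ht with a | a
      · right; rw [a]
      · left; rw [a]; norm_num
    · by_cases h0 : 0 < s k * B k i
      · rw [s1 i hi h0]; exact ht
      · rw [s2 i hi h0]; exact h.sgn i
  have asym : ∀ i j, i ≠ k → j ≠ k → newS B s k i = s k → newS B s k j = -s k →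
      ¬ 0 < s k * mutB k B i j := by
    intro i j hi hj hsi hsj hact
    have hj0 : ¬ 0 < s k * B k j := by
      intro h0
      rw [s1 j hj h0] at hsj
      exact htne hsj
    rw [s2 j hj hj0] at hsj
    have hjk : 0 < s k * B j k := hB.dich_t ht hj.symm hj0
    by_cases hi0 : 0 < s k * B k i
    · have h5 := hB.path_t ht hk hjk hi0
      have h6 := hB'.neg_t ht h5
      linarith
    · rw [s2 i hi hi0] at hsi
      have hik : 0 < s k * B i k := hB.dich_t ht hi.symm hi0
      rw [hB.nopath_t ht hi hj hik hjk] at hact
      by_cases hlj : last = some j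
      · exact hi0 (hB.closed_t ht hlj hact hjk)
      · by_cases hli : last = some i
        · have := h.opp i hli k (by rw [hsi]; exact hik)
          rw [hsi] at this
          exact htne this
        · exact h.inactive i j hli hlj (by rw [hsi, hsj, neg_neg]) (by rw [hsi]; exact hact)
  refine ⟨hsgn, ?_, ?_, ?_, ?_⟩
  · intro i m
    by_cases hi : i = k
    · subst hi
      rw [sk, mutC_right]
      have := h.nonneg i m
      linarith
    · by_cases h0 : 0 < s k * B k i
      · rw [s1 i hi h0]
        exact (h.star k hk hi h0 m).1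
      · rw [s2 i hi h0, mutC_sgn B C (s k) ht m (h.nonneg k m) hi,
          max_eq_right (not_lt.mp h0), mul_zero, add_zero]
        exact h.nonneg i m
  · intro i j hi hj hs hact
    have hi' : i ≠ k := fun h0 => hi (by rw [h0])
    have hj' : j ≠ k := fun h0 => hj (by rw [h0])
    have hcase : newS B s k i = s k ∨ newS B s k i = -s k := by
      rcases ht with a | a <;> rcases hsgn i with b | b
      · left; rw [a, b]
      · right; rw [a, b]
      · right; rw [a, b]; norm_num
      · left; rw [a, b]
    rcases hcase with h1 | h1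
    · have h2 : newS B s k j = -s k := by
        rw [← h1, hs, neg_neg]
      rw [h1] at hact
      exact asym i j hi' hj' h1 h2 hact
    · have h2 : newS B s k j = s k := by
        have : newS B s k j = -newS B s k i := by rw [hs, neg_neg]
        rw [this, h1, neg_neg]
      rw [h1] at hact
      have h3 : s k * mutB k B i j < 0 := by linarith
      exact asym j i hj' hi' h2 h1 (hB'.pos_t ht h3)
  · intro l hl q hs hact m
    have hkl : k = l := Option.some.inj hl
    subst hkl
    rw [sk, neg_neg] at hs
    have hq : q ≠ k := by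
      rintro rfl
      rw [sk] at hs
      exact htne hs.symm
    rw [hs, mutB_right] at hact
    have h5 : s k * B q k < 0 := by linarith
    have h6 := hB.pos_t ht h5
    have h7 := (h.star k hk hq h6 m).2
    rw [sk, hs, mutC_right, mutB_right, abs_neg]
    have h8 := abs_four (hB.four q k hq)
    have h9 : |B q k| * (|B k q| * (s k * C m k)) ≤ |B q k| * (2 * (s k * mutC k B C m q)) :=
      mul_le_mul_of_nonneg_left h7 (abs_nonneg _)
    have h10 : 4 * (s k * C m k) ≤ (|B q k| * |B k q|) * (s k * C m k) :=
      mul_le_mul_of_nonneg_right h8 (h.nonneg k m)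
    nlinarith
  · intro l hl i hact
    have hkl : k = l := Option.some.inj hl
    subst hkl
    rw [sk, mutB_left] at hact
    have h5 : 0 < s k * B k i := by linarith
    have hi : i ≠ k := by
      rintro rfl
      rw [hB.diag] at h5
      linarith
    rw [sk, s1 i hi h5, neg_neg]

theorem CI.coherent {B C : Matrix (Fin n) (Fin n) ℤ} {last : Option (Fin n)} {s : Fin n → ℤ}
    (h : CI B C last s) (k : Fin n) : (∀ m, 0 ≤ C m k) ∨ (∀ m, C m k ≤ 0) := by
  rcases h.sgn k with h1 | h1
  · left
    intro m
    have := h.nonneg k m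
    rw [h1, one_mul] at this
    exact this
  · right
    intro m
    have := h.nonneg k m
    rw [h1] at this
    linarith

theorem inv_RW {B0 : Matrix (Fin n) (Fin n) ℤ} (hB : St B0 none) :
    ∀ d last, RW B0 d last → St d.B last ∧ ∃ s, CI d.B d.C last s := by
  intro d last h
  induction h with
  | base => exact ⟨hB, _, CI.init B0⟩
  | step d last k h hk ih =>
    obtain ⟨h1, s, h2⟩ := ih
    exact ⟨h1.mutate k hk, _, h2.mutate h1 k hk⟩

/-- the matrices reached from `B0` along reduced words, with the last letter -/
inductive RMatN (B0 : Matrix (Fin n) (Fin n) ℤ) :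
    Matrix (Fin n) (Fin n) ℤ → Option (Fin n) → Prop
  | base : RMatN B0 B0 none
  | step {B last} (h : RMatN B0 B last) (k : Fin n) (hk : last ≠ some k) :
      RMatN B0 (mutB k B) (some k)

theorem RMatN.st {B0 B : Matrix (Fin n) (Fin n) ℤ} {last : Option (Fin n)}
    (h0 : St B0 none) (h : RMatN B0 B last) : St B last := by
  induction h with
  | base => exact h0
  | step _ k hk ih => exact ih.mutate k hk

theorem RMatN.next {B0 B : Matrix (Fin n) (Fin n) ℤ} {last : Option (Fin n)}
    (h : RMatN B0 B last) (k : Fin n) : ∃ last', RMatN B0 (mutB k B) last' := by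
  by_cases hk : last = some k
  · cases h with
    | base => simp at hk
    | @step B' last' h' k' hk' =>
      have hkk : k' = k := by simpa using hk
      subst hkk
      rw [mutB_mutB]
      exact ⟨_, h'⟩
  · exact ⟨_, RMatN.step h k hk⟩

theorem tss_of_st (B : Matrix (Fin n) (Fin n) ℤ) (h : St B none) : TotallySignSkew B := by
  have key : ∀ w : List (Fin n), ∃ last, RMatN B (mutWord B w) last := by
    intro w
    induction w using List.reverseRecOn with
    | nil => exact ⟨none, RMatN.base⟩
    | append_singleton w k ih =>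
      obtain ⟨last, hl⟩ := ih
      unfold mutWord at hl ⊢
      rw [List.foldl_append, List.foldl_cons, List.foldl_nil]
      exact hl.next k
  intro w
  obtain ⟨last, h1⟩ := key w
  exact (h1.st h).signSkew

/-- **Main theorem, any rank.** -/
theorem abundant_basis (B : Matrix (Fin n) (Fin n) ℤ) (hd : ∀ i, B i i = 0)
    (h4 : ∀ i j, i ≠ j → B i j * B j i ≤ -4)
    (hg : ∀ i j k, 0 < B i j → 0 < B j k → 0 < B k i →
      2 * |B i j| ≤ |B i k| * |B k j| ∧ 2 * |B j i| ≤ |B j k| * |B k i|) :
    TotallySignSkew B ∧ ∀ w : List (Fin n), ∃ b : Module.Basis (Fin n) ℤ (Fin n → ℤ),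
      ∀ i, IsGVector B ((seedAt B w).x i) (b i) := by
  have h : St B none := ⟨hd, h4, fun i j k _ => hg i j k, fun l hl => by simp at hl⟩
  refine ⟨tss_of_st B h, basis_of_coherent B (tss_of_st B h) ?_⟩
  intro d last hr k _
  obtain ⟨_, s, hs⟩ := inv_RW h d last hr
  exact hs.coherent k

end Pool.Agent.Lib.MP_1d68e1_al
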