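import Pool.Agent.Lib.MP_1d68e1_al.GeneralC
import Pool.Agent.Lib.MP_1d68e1_al.Family

/-!
# MP_1d68e1_al: the class of abundant matrices whose oriented triangles do not shrink
-/

set_option autoImplicit false

noncomputable section

namespace Pool.Agent.Lib.MP_1d68e1_al

variable {n : ℕ}

/-- `B` has zero diagonal, `b_ij b_ji ≤ -4` for all `i ≠ j`, and for every oriented triangle
`i → j → k → i` (that is, `b_ij, b_jk, b_ki > 0`) one has `2 |b_ij| ≤ |b_ik| |b_kj|` and
`2 |b_ji| ≤ |b_jk| |b_ki|`. -/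
def NonShrinking (B : Matrix (Fin n) (Fin n) ℤ) : Prop :=
  (∀ i, B i i = 0) ∧ (∀ i j, i ≠ j → B i j * B j i ≤ -4) ∧
    ∀ i j k, 0 < B i j → 0 < B j k → 0 < B k i →
      2 * |B i j| ≤ |B i k| * |B k j| ∧ 2 * |B j i| ≤ |B j k| * |B k i|

theorem NonShrinking.st {B : Matrix (Fin n) (Fin n) ℤ} (h : NonShrinking B) : St B none :=
  ⟨h.1, h.2.1, fun i j k _ => h.2.2 i j k, fun l hl => by simp at hl⟩

/-- an oriented triangle -/
def HasTri (B : Matrix (Fin n) (Fin n) ℤ) : Prop :=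
  ∃ i j k, 0 < B i j ∧ 0 < B j k ∧ 0 < B k i

theorem HasTri.mutate {B : Matrix (Fin n) (Fin n) ℤ} {last : Option (Fin n)} (h : St B last)
    (ht : HasTri B) (k : Fin n) (hk : last ≠ some k) : HasTri (mutB k B) := by
  by_cases hp : ∃ x y, 0 < B x k ∧ 0 < B k y
  · obtain ⟨x, y, hx, hy⟩ := hp
    refine ⟨x, y, k, (h.path_pos hk hx hy).1, ?_, ?_⟩
    · rw [mutB_right]
      have := h.neg hy
      linarith
    · rw [mutB_left]
      have := h.neg hx
      linarith
  · push Not at hp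
    obtain ⟨a, b, c, h1, h2, h3⟩ := ht
    have ha : a ≠ k := by
      rintro rfl
      have := hp c b h3
      linarith
    have hb : b ≠ k := by
      rintro rfl
      have := hp a c h1
      linarith
    have hc : c ≠ k := by
      rintro rfl
      have := hp b a h2
      linarith
    have hall : (∀ x, x ≠ k → 0 < B x k) ∨ (∀ x, x ≠ k → 0 < B k x) := by
      by_cases h0 : ∃ x, 0 < B x k
      · obtain ⟨x, hx⟩ := h0
        left
        intro y hy
        rcases h.dich hy with h4 | h4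
        · exact h4
        · have := hp x y hx
          linarith
      · push Not at h0
        right
        intro y hy
        rcases h.dich hy with h4 | h4
        · have := h0 y
          linarith
        · exact h4
    have e : ∀ x y, x ≠ k → y ≠ k → mutB k B x y = B x y := by
      intro x y hx hy
      rcases hall with h4 | h4
      · exact h.nopath hx hy (Or.inl ⟨h4 x hx, h4 y hy⟩)
      · exact h.nopath hx hy (Or.inr ⟨h4 x hx, h4 y hy⟩)
    refine ⟨a, b, c, ?_, ?_, ?_⟩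
    · rw [e a b ha hb]; exact h1
    · rw [e b c hb hc]; exact h2
    · rw [e c a hc ha]; exact h3

theorem HasTri.not_acyclic {B : Matrix (Fin n) (Fin n) ℤ} (h : HasTri B) : ¬ Acyclic B := by
  obtain ⟨a, b, c, h1, h2, h3⟩ := h
  intro ha
  exact ha a (Relation.TransGen.tail (Relation.TransGen.tail (Relation.TransGen.single h1) h2) h3)

theorem RMatN.hasTri {B0 B : Matrix (Fin n) (Fin n) ℤ} {last : Option (Fin n)}
    (h0 : St B0 none) (ht : HasTri B0) (h : RMatN B0 B last) : HasTri B := by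
  induction h with
  | base => exact ht
  | step h k hk ih => exact HasTri.mutate (h.st h0) ih k hk

theorem rmat_word (B : Matrix (Fin n) (Fin n) ℤ) (w : List (Fin n)) :
    ∃ last, RMatN B (mutWord B w) last := by
  induction w using List.reverseRecOn with
  | nil => exact ⟨none, RMatN.base⟩
  | append_singleton w k ih =>
    obtain ⟨last, hl⟩ := ih
    unfold mutWord at hl ⊢
    rw [List.foldl_append, List.foldl_cons, List.foldl_nil]
    exact hl.next k

theorem mutation_cyclic {B : Matrix (Fin n) (Fin n) ℤ} (h : NonShrinking B) (ht : HasTri B)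
    (w : List (Fin n)) : ¬ Acyclic (mutWord B w) := by
  obtain ⟨last, hr⟩ := rmat_word B w
  exact (hr.hasTri h.st ht).not_acyclic

/-- the entries of the example -/
def exF (i j : ℕ) : ℤ :=
  if i = j then 0 else if i = 2 ∧ j = 0 then 3 else if i = 0 ∧ j = 2 then -4
    else if i < j then 3 else -3

/-- an example of any rank: one oriented triangle -/
def exN (n : ℕ) : Matrix (Fin n) (Fin n) ℤ := fun i j => exF i.val j.val

theorem exF_pos {i j : ℕ} (h : 0 < exF i j) :
    (exF i j = 3) ∧ ((i < j ∧ ¬ (i = 0 ∧ j = 2)) ∨ (i = 2 ∧ j = 0)) := by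
  unfold exF at h ⊢
  split_ifs at h ⊢ <;> first | (exfalso; omega) | (refine ⟨rfl, ?_⟩; omega)

theorem exF_four (i j : ℕ) (h : i ≠ j) : exF i j * exF j i ≤ -4 := by
  unfold exF
  split_ifs <;> first | omega | norm_num

theorem exF_cyc {i j k : ℕ} (h1 : 0 < exF i j) (h2 : 0 < exF j k) (h3 : 0 < exF k i) :
    2 * |exF i j| ≤ |exF i k| * |exF k j| ∧ 2 * |exF j i| ≤ |exF j k| * |exF k i| := by
  obtain ⟨_, a⟩ := exF_pos h1
  obtain ⟨_, b⟩ := exF_pos h2
  obtain ⟨_, c⟩ := exF_pos h3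
  have hk : (i = 0 ∧ j = 1 ∧ k = 2) ∨ (i = 1 ∧ j = 2 ∧ k = 0) ∨ (i = 2 ∧ j = 0 ∧ k = 1) := by
    omega
  rcases hk with ⟨rfl, rfl, rfl⟩ | ⟨rfl, rfl, rfl⟩ | ⟨rfl, rfl, rfl⟩ <;> decide

theorem exN_nonShrinking (n : ℕ) : NonShrinking (exN n) := by
  refine ⟨?_, ?_, ?_⟩
  · intro i
    show exF i.val i.val = 0
    unfold exF
    rw [if_pos rfl]
  · intro i j hij
    exact exF_four _ _ (fun h => hij (Fin.ext h))
  · intro i j k h1 h2 h3
    exact exF_cyc h1 h2 h3

theorem exN_hasTri (n : ℕ) (hn : 3 ≤ n) : HasTri (exN n) := by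
  refine ⟨⟨0, by omega⟩, ⟨1, by omega⟩, ⟨2, by omega⟩, ?_, ?_, ?_⟩
  · show 0 < exF 0 1
    decide
  · show 0 < exF 1 2
    decide
  · show 0 < exF 2 0
    decide

theorem exN_not_skewSymmetrizable (n : ℕ) (hn : 3 ≤ n) : ¬ SkewSymmetrizable (exN n) := by
  rintro ⟨d, hd, h⟩
  have h01 := h ⟨0, by omega⟩ ⟨1, by omega⟩
  have h12 := h ⟨1, by omega⟩ ⟨2, by omega⟩
  have h20 := h ⟨2, by omega⟩ ⟨0, by omega⟩
  have e01 : exN n ⟨0, by omega⟩ ⟨1, by omega⟩ = 3 := by show exF 0 1 = 3; decide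
  have e10 : exN n ⟨1, by omega⟩ ⟨0, by omega⟩ = -3 := by show exF 1 0 = -3; decide
  have e12 : exN n ⟨1, by omega⟩ ⟨2, by omega⟩ = 3 := by show exF 1 2 = 3; decide
  have e21 : exN n ⟨2, by omega⟩ ⟨1, by omega⟩ = -3 := by show exF 2 1 = -3; decide
  have e20 : exN n ⟨2, by omega⟩ ⟨0, by omega⟩ = 3 := by show exF 2 0 = 3; decide
  have e02 : exN n ⟨0, by omega⟩ ⟨2, by omega⟩ = -4 := by show exF 0 2 = -4; decide
  rw [e01, e10] at h01
  rw [e12, e21] at h12
  rw [e20, e02] at h20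
  have := hd ⟨0, by omega⟩
  omega

end Pool.Agent.Lib.MP_1d68e1_al
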