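import Pool.Agent.Lib.MP_1d68e1_al.Defs

/-!
# MP_1d68e1_al: homogeneity of cluster variables, and the recursion for the degrees
-/

set_option autoImplicit false

noncomputable section

open MvPolynomial

namespace Pool.Agent.Lib.MP_1d68e1_al

variable {n : ℕ}

/-- Evaluation at the point `(1, ..., 1)`. -/
def ev1 (P : MvPolynomial (Fin n ⊕ Fin n) ℤ) : ℤ := eval (fun _ => (1 : ℤ)) P

/-- `z` is a quotient of homogeneous polynomials, positive at `(1, ..., 1)`, with degrees that
differ by `g`. -/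
def PH (B : Matrix (Fin n) (Fin n) ℤ) (z : Amb n) (g : Fin n → ℤ) : Prop :=
  ∃ P Q : MvPolynomial (Fin n ⊕ Fin n) ℤ, ∃ p q : Fin n → ℤ, 0 < ev1 P ∧ 0 < ev1 Q ∧
    IsWeightedHomogeneous (wt B) P p ∧ IsWeightedHomogeneous (wt B) Q q ∧
    z = algebraMap _ (Amb n) P / algebraMap _ (Amb n) Q ∧ g = p - q

theorem ne_zero_of_ev1 {P : MvPolynomial (Fin n ⊕ Fin n) ℤ} (h : 0 < ev1 P) : P ≠ 0 := by
  rintro rfl
  simp [ev1] at h

theorem map_ne_zero_of_ev1 {P : MvPolynomial (Fin n ⊕ Fin n) ℤ} (h : 0 < ev1 P) :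
    algebraMap _ (Amb n) P ≠ 0 := by
  intro h0
  apply ne_zero_of_ev1 h
  exact (IsFractionRing.injective (MvPolynomial (Fin n ⊕ Fin n) ℤ) (Amb n))
    (h0.trans (map_zero _).symm)

theorem PH.homogDeg {B : Matrix (Fin n) (Fin n) ℤ} {z : Amb n} {g : Fin n → ℤ} (h : PH B z g) :
    HomogDeg B z g := by
  obtain ⟨P, Q, p, q, hP, hQ, h1, h2, h3, h4⟩ := h
  exact ⟨P, Q, p, q, ne_zero_of_ev1 hP, ne_zero_of_ev1 hQ, h1, h2, h3, h4⟩

theorem HomogDeg.unique {B : Matrix (Fin n) (Fin n) ℤ} {z : Amb n} {g g' : Fin n → ℤ}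
    (h : HomogDeg B z g) (h' : HomogDeg B z g') : g' = g := by
  obtain ⟨P, Q, p, q, hP, hQ, hPp, hQq, hz, hg⟩ := h
  obtain ⟨P', Q', p', q', hP', hQ', hPp', hQq', hz', hg'⟩ := h'
  have hinj := IsFractionRing.injective (MvPolynomial (Fin n ⊕ Fin n) ℤ) (Amb n)
  have hQa : algebraMap _ (Amb n) Q ≠ 0 := fun h => hQ (hinj (h.trans (map_zero _).symm))
  have hQa' : algebraMap _ (Amb n) Q' ≠ 0 := fun h => hQ' (hinj (h.trans (map_zero _).symm))
  rw [hz, div_eq_div_iff hQa hQa', ← map_mul, ← map_mul] at hz'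
  have h1 := hinj hz'
  have h2 : IsWeightedHomogeneous (wt B) (P * Q') (p + q') := hPp.mul hQq'
  have h3 : IsWeightedHomogeneous (wt B) (P * Q') (p' + q) := by
    rw [h1]; exact hPp'.mul hQq
  have h4 : p + q' = p' + q :=
    IsWeightedHomogeneous.inj_right (mul_ne_zero hP hQ') h2 h3
  rw [hg, hg', sub_eq_sub_iff_add_eq_add]
  exact h4.symm

theorem PH.isGVector {B : Matrix (Fin n) (Fin n) ℤ} {z : Amb n} {g : Fin n → ℤ}
    (h : PH B z g) : IsGVector B z g :=
  ⟨h.homogDeg, fun _ h' => h.homogDeg.unique h'⟩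

theorem PH.mul {B : Matrix (Fin n) (Fin n) ℤ} {z z' : Amb n} {g g' : Fin n → ℤ}
    (h : PH B z g) (h' : PH B z' g') : PH B (z * z') (g + g') := by
  obtain ⟨P, Q, p, q, hP, hQ, h1, h2, h3, h4⟩ := h
  obtain ⟨P', Q', p', q', hP', hQ', h1', h2', h3', h4'⟩ := h'
  refine ⟨P * P', Q * Q', p + p', q + q', ?_, ?_, h1.mul h1', h2.mul h2', ?_, ?_⟩
  · unfold ev1 at *; rw [map_mul]; exact mul_pos hP hP'
  · unfold ev1 at *; rw [map_mul]; exact mul_pos hQ hQ'
  · rw [h3, h3', map_mul, map_mul, div_mul_div_comm]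
  · rw [h4, h4']; abel

theorem PH.one (B : Matrix (Fin n) (Fin n) ℤ) : PH B 1 0 := by
  refine ⟨1, 1, 0, 0, by simp [ev1], by simp [ev1], isWeightedHomogeneous_one _ _,
    isWeightedHomogeneous_one _ _, by simp, by simp⟩

theorem PH.pow {B : Matrix (Fin n) (Fin n) ℤ} {z : Amb n} {g : Fin n → ℤ}
    (h : PH B z g) (m : ℕ) : PH B (z ^ m) (m • g) := by
  induction m with
  | zero => rw [pow_zero, zero_smul]; exact PH.one B
  | succ m ih => rw [pow_succ, succ_nsmul]; exact ih.mul h

theorem PH.prod {B : Matrix (Fin n) (Fin n) ℤ} {ι : Type*} (S : Finset ι) (z : ι → Amb n)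
    (g : ι → Fin n → ℤ) (h : ∀ i ∈ S, PH B (z i) (g i)) : PH B (∏ i ∈ S, z i) (∑ i ∈ S, g i) := by
  classical
  induction S using Finset.induction_on with
  | empty => simpa using PH.one B
  | insert a S ha ih =>
    rw [Finset.prod_insert ha, Finset.sum_insert ha]
    exact (h a (Finset.mem_insert_self a S)).mul
      (ih fun i hi => h i (Finset.mem_insert_of_mem hi))

theorem PH.div {B : Matrix (Fin n) (Fin n) ℤ} {z z' : Amb n} {g g' : Fin n → ℤ}
    (h : PH B z g) (h' : PH B z' g') : PH B (z / z') (g - g') := by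
  obtain ⟨P, Q, p, q, hP, hQ, h1, h2, h3, h4⟩ := h
  obtain ⟨P', Q', p', q', hP', hQ', h1', h2', h3', h4'⟩ := h'
  refine ⟨P * Q', Q * P', p + q', q + p', ?_, ?_, h1.mul h2', h2.mul h1', ?_, ?_⟩
  · unfold ev1 at *; rw [map_mul]; exact mul_pos hP hQ'
  · unfold ev1 at *; rw [map_mul]; exact mul_pos hQ hP'
  · rw [h3, h3', map_mul, map_mul, div_div_div_eq]
  · rw [h4, h4']; abel

theorem PH.add {B : Matrix (Fin n) (Fin n) ℤ} {z z' : Amb n} {g : Fin n → ℤ}
    (h : PH B z g) (h' : PH B z' g) : PH B (z + z') g := by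
  obtain ⟨P, Q, p, q, hP, hQ, h1, h2, h3, h4⟩ := h
  obtain ⟨P', Q', p', q', hP', hQ', h1', h2', h3', h4'⟩ := h'
  have hd : q + p' = p + q' := by
    have h5 : p - q = p' - q' := h4.symm.trans h4'
    rw [sub_eq_sub_iff_add_eq_add] at h5
    rw [h5]; abel
  refine ⟨P * Q' + Q * P', Q * Q', p + q', q + q', ?_, ?_, ?_, h2.mul h2', ?_, ?_⟩
  · unfold ev1 at *; rw [map_add, map_mul, map_mul]
    exact add_pos (mul_pos hP hQ') (mul_pos hQ hP')
  · unfold ev1 at *; rw [map_mul]; exact mul_pos hQ hQ'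
  · refine IsWeightedHomogeneous.add (h1.mul h2') ?_
    rw [← hd]; exact h2.mul h1'
  · rw [h3, h3', map_add, map_mul, map_mul, map_mul,
      div_add_div _ _ (map_ne_zero_of_ev1 hQ) (map_ne_zero_of_ev1 hQ')]
  · rw [h4]; abel

theorem PH.varx (B : Matrix (Fin n) (Fin n) ℤ) (i : Fin n) :
    PH B (algebraMap (MvPolynomial (Fin n ⊕ Fin n) ℤ) (Amb n) (X (Sum.inl i)))
      (Pi.single i 1) := by
  refine ⟨X (Sum.inl i), 1, Pi.single i 1, 0, by simp [ev1], by simp [ev1], ?_,
    isWeightedHomogeneous_one _ _, by simp, by simp⟩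
  exact isWeightedHomogeneous_X ℤ (wt B) (Sum.inl i)

theorem PH.vary (B : Matrix (Fin n) (Fin n) ℤ) (j : Fin n) :
    PH B (yv j) (fun i => -B i j) := by
  refine ⟨X (Sum.inr j), 1, (fun i => -B i j), 0, by simp [ev1], by simp [ev1], ?_,
    isWeightedHomogeneous_one _ _, by simp [yv], by simp⟩
  exact isWeightedHomogeneous_X ℤ (wt B) (Sum.inr j)

/-! ### The degrees of the cluster variables -/

/-- The three matrices `(B, C, G)` attached to a seed; row `i` of `G` is the degree of `x_i`. -/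
structure Dat (n : ℕ) where
  B : Matrix (Fin n) (Fin n) ℤ
  C : Matrix (Fin n) (Fin n) ℤ
  G : Fin n → Fin n → ℤ

/-- the new degree -/
def newG (B0 : Matrix (Fin n) (Fin n) ℤ) (d : Dat n) (k : Fin n) : Fin n → ℤ := fun r =>
  -d.G k r + ∑ i, max (d.B i k) 0 * d.G i r - ∑ j, max (d.C j k) 0 * B0 r j

/-- mutation of the data -/
def Dat.mutate (B0 : Matrix (Fin n) (Fin n) ℤ) (d : Dat n) (k : Fin n) : Dat n where
  B := mutB k d.B
  C := mutC k d.B d.C
  G := Function.update d.G k (newG B0 d k)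

/-- initial data -/
def Dat.init (B0 : Matrix (Fin n) (Fin n) ℤ) : Dat n where
  B := B0
  C := 1
  G := fun i => Pi.single i 1

/-- the relation `G B = B0 C` -/
def Dat.Rel (B0 : Matrix (Fin n) (Fin n) ℤ) (d : Dat n) : Prop :=
  ∀ k r, ∑ i, d.B i k * d.G i r = ∑ j, d.C j k * B0 r j

/-- the half sum -/
theorem half_eq (a b : ℤ) : (|a| * b + a * |b|) / 2 = max a 0 * b + a * max (-b) 0 := by
  rcases le_total 0 a with ha | ha <;> rcases le_total 0 b with hb | hb
  · rw [abs_of_nonneg ha, abs_of_nonneg hb, max_eq_left ha, max_eq_right (by linarith)]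
    have : a * b + a * b = (a * b) * 2 := by ring
    rw [this, Int.mul_ediv_cancel _ (by norm_num)]; ring
  · rw [abs_of_nonneg ha, abs_of_nonpos hb, max_eq_left ha, max_eq_left (by linarith)]
    have : a * b + a * -b = 0 := by ring
    rw [this]; simp
  · rw [abs_of_nonpos ha, abs_of_nonneg hb, max_eq_right ha, max_eq_right (by linarith)]
    have : -a * b + a * b = 0 := by ring
    rw [this]; simp
  · rw [abs_of_nonpos ha, abs_of_nonpos hb, max_eq_right ha, max_eq_left (by linarith)]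
    have : -a * b + a * -b = (a * -b) * 2 := by ring
    rw [this, Int.mul_ediv_cancel _ (by norm_num)]; ring

theorem mutB_ne {k i j : Fin n} (B : Matrix (Fin n) (Fin n) ℤ) (hi : i ≠ k) (hj : j ≠ k) :
    mutB k B i j = B i j + (max (B i k) 0 * B k j + B i k * max (-B k j) 0) := by
  unfold mutB
  rw [if_neg (by push Not; exact ⟨hi, hj⟩), half_eq]

theorem mutB_left (k j : Fin n) (B : Matrix (Fin n) (Fin n) ℤ) : mutB k B k j = -B k j := by
  unfold mutB; rw [if_pos (Or.inl rfl)]

theorem mutB_right (k i : Fin n) (B : Matrix (Fin n) (Fin n) ℤ) : mutB k B i k = -B i k := by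
  unfold mutB; rw [if_pos (Or.inr rfl)]

theorem mutC_ne {k i j : Fin n} (B C : Matrix (Fin n) (Fin n) ℤ) (hj : j ≠ k) :
    mutC k B C i j = C i j + (max (C i k) 0 * B k j + C i k * max (-B k j) 0) := by
  unfold mutC
  rw [if_neg hj, half_eq]

theorem mutC_right (k i : Fin n) (B C : Matrix (Fin n) (Fin n) ℤ) : mutC k B C i k = -C i k := by
  unfold mutC; rw [if_pos rfl]

theorem max_sub_max (a : ℤ) : max a 0 - max (-a) 0 = a := by
  rcases le_total 0 a with ha | ha
  · rw [max_eq_left ha, max_eq_right (by linarith)]; ring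
  · rw [max_eq_right ha, max_eq_left (by linarith)]; ring

theorem Dat.rel_init (B0 : Matrix (Fin n) (Fin n) ℤ) : (Dat.init B0).Rel B0 := by
  intro k r
  show ∑ i, B0 i k * (Pi.single i (1 : ℤ) : Fin n → ℤ) r = ∑ j, (1 : Matrix (Fin n) (Fin n) ℤ) j k * B0 r j
  rw [Finset.sum_eq_single r, Finset.sum_eq_single k]
  · simp
  · intro j _ hj; simp [Matrix.one_apply_ne hj]
  · simp
  · intro i _ hi; simp [Pi.single_eq_of_ne (Ne.symm hi)]
  · simp

theorem Dat.rel_mutate (B0 : Matrix (Fin n) (Fin n) ℤ) (d : Dat n) (h : d.Rel B0)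
    (hd : ∀ i, d.B i i = 0) (k : Fin n) : (d.mutate B0 k).Rel B0 := by
  intro l r
  show ∑ i, mutB k d.B i l * Function.update d.G k (newG B0 d k) i r =
    ∑ j, mutC k d.B d.C j l * B0 r j
  by_cases hl : l = k
  · subst hl
    have h1 : ∀ i, mutB l d.B i l * Function.update d.G l (newG B0 d l) i r =
        -(d.B i l * d.G i r) := by
      intro i
      rw [mutB_right]
      by_cases hi : i = l
      · subst hi
        rw [hd]; ring
      · rw [Function.update_of_ne hi]; ring
    rw [Finset.sum_congr rfl fun i _ => h1 i, Finset.sum_neg_distrib, h l r]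
    rw [← Finset.sum_neg_distrib]
    refine Finset.sum_congr rfl fun j _ => ?_
    rw [mutC_right]; ring
  · -- l ≠ k
    have hkk := hd k
    have h1 : ∀ i, mutB k d.B i l * Function.update d.G k (newG B0 d k) i r =
        (d.B i l * d.G i r + d.B k l * (max (d.B i k) 0 * d.G i r) +
          max (-d.B k l) 0 * (d.B i k * d.G i r)) +
        if i = k then (-d.B k l * newG B0 d k r - d.B k l * d.G k r) else 0 := by
      intro i
      by_cases hi : i = k
      · subst hi
        rw [mutB_left, Function.update_self, if_pos rfl, hkk, max_self]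
        ring
      · rw [Function.update_of_ne hi, if_neg hi, mutB_ne _ hi hl]
        ring
    rw [Finset.sum_congr rfl fun i _ => h1 i, Finset.sum_add_distrib, Finset.sum_add_distrib,
      Finset.sum_add_distrib, Finset.sum_ite_eq' Finset.univ k, if_pos (Finset.mem_univ k),
      ← Finset.mul_sum, ← Finset.mul_sum, h l r, h k r]
    have h2 : ∀ j, mutC k d.B d.C j l * B0 r j = d.C j l * B0 r j +
        d.B k l * (max (d.C j k) 0 * B0 r j) + max (-d.B k l) 0 * (d.C j k * B0 r j) := by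
      intro j
      rw [mutC_ne _ _ hl]
      ring
    rw [Finset.sum_congr rfl fun j _ => h2 j, Finset.sum_add_distrib, Finset.sum_add_distrib,
      ← Finset.mul_sum, ← Finset.mul_sum]
    unfold newG
    ring

/-- the seed is described by the data -/
structure Match (B0 : Matrix (Fin n) (Fin n) ℤ) (s : Seed n) (d : Dat n) : Prop where
  hB : s.B = d.B
  hC : s.C = d.C
  hG : ∀ i, PH B0 (s.x i) (d.G i)

theorem toNat_smul (a : ℤ) (g : Fin n → ℤ) : (a.toNat • g : Fin n → ℤ) = fun r => max a 0 * g r := by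
  funext r
  rw [Pi.smul_apply, nsmul_eq_mul, Int.toNat_eq_max]

theorem Match.mutate {B0 : Matrix (Fin n) (Fin n) ℤ} {s : Seed n} {d : Dat n} (h : Match B0 s d)
    (hr : d.Rel B0) (k : Fin n) : Match B0 (s.mutate k) (d.mutate B0 k) := by
  refine ⟨?_, ?_, ?_⟩
  · show mutB k s.B = mutB k d.B
    rw [h.hB]
  · show mutC k s.B s.C = mutC k d.B d.C
    rw [h.hB, h.hC]
  · intro i
    show PH B0 (Function.update s.x k _ i) (Function.update d.G k (newG B0 d k) i)
    by_cases hi : i = k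
    · subst hi
      rw [Function.update_self, Function.update_self, h.hB, h.hC]
      have e1 : PH B0 ((∏ j, s.x j ^ (d.B j i).toNat) * (∏ j, yv j ^ (d.C j i).toNat))
          ((∑ j, (d.B j i).toNat • d.G j) + ∑ j, (d.C j i).toNat • (fun r => -B0 r j)) :=
        (PH.prod _ _ _ fun j _ => (h.hG j).pow _).mul
          (PH.prod _ _ _ fun j _ => (PH.vary B0 j).pow _)
      have e2 : PH B0 ((∏ j, s.x j ^ (-d.B j i).toNat) * (∏ j, yv j ^ (-d.C j i).toNat))
          ((∑ j, (-d.B j i).toNat • d.G j) + ∑ j, (-d.C j i).toNat • (fun r => -B0 r j)) :=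
        (PH.prod _ _ _ fun j _ => (h.hG j).pow _).mul
          (PH.prod _ _ _ fun j _ => (PH.vary B0 j).pow _)
      have e3 : ((∑ j, (-d.B j i).toNat • d.G j) + ∑ j, (-d.C j i).toNat • (fun r => -B0 r j)) =
          ((∑ j, (d.B j i).toNat • d.G j) + ∑ j, (d.C j i).toNat • (fun r => -B0 r j)) := by
        funext r
        simp only [toNat_smul, Pi.add_apply, Finset.sum_apply]
        have h1 := hr i r
        have h2 : ∑ j, d.B j i * d.G j r =
            ∑ j, max (d.B j i) 0 * d.G j r - ∑ j, max (-d.B j i) 0 * d.G j r := by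
          rw [← Finset.sum_sub_distrib]
          refine Finset.sum_congr rfl fun j _ => ?_
          rw [← sub_mul, max_sub_max]
        have h3 : ∑ j, d.C j i * B0 r j =
            ∑ j, max (d.C j i) 0 * B0 r j - ∑ j, max (-d.C j i) 0 * B0 r j := by
          rw [← Finset.sum_sub_distrib]
          refine Finset.sum_congr rfl fun j _ => ?_
          rw [← sub_mul, max_sub_max]
        simp only [mul_neg, Finset.sum_neg_distrib]
        linarith
      rw [e3] at e2
      have e4 := (e1.add e2).div (h.hG i)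
      have e5 : ((∑ j, (d.B j i).toNat • d.G j) + ∑ j, (d.C j i).toNat • (fun r => -B0 r j)) -
          d.G i = newG B0 d i := by
        funext r
        unfold newG
        simp only [toNat_smul, Pi.add_apply, Pi.sub_apply, Finset.sum_apply, mul_neg,
          Finset.sum_neg_distrib]
        ring
      rw [e5] at e4
      exact e4
    · rw [Function.update_of_ne hi, Function.update_of_ne hi]
      exact h.hG i

theorem match_init (B0 : Matrix (Fin n) (Fin n) ℤ) : Match B0 (initSeed B0) (Dat.init B0) :=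
  ⟨rfl, rfl, fun i => PH.varx B0 i⟩

end Pool.Agent.Lib.MP_1d68e1_al
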