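import Pool.Agent.Lib.MP_1d68e1_al.GeneralEx

/-!
# MP_1d68e1_al: g-vectors of a cluster form a basis, abundant matrices of any rank
-/

set_option autoImplicit false

noncomputable section

namespace Pool.Agent.Results.MP_1d68e1_al.AbundantAnyRank

open Pool.Agent.Lib.MP_1d68e1_al

/-- Let `B` be an `n x n` integer matrix with zero diagonal, `b_ij b_ji ≤ -4` for `i ≠ j`, all of
whose oriented triangles are non-shrinking. Then `B` is totally sign-skew-symmetric and the
g-vectors of every cluster of the cluster algebra with principal coefficients at `B` form a basis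
of `ℤ^n`. For every `n ≥ 3` the class contains matrices that are neither skew-symmetrizable nor
mutation-equivalent to an acyclic matrix. -/
theorem result :
    (∀ (n : ℕ) (B : Matrix (Fin n) (Fin n) ℤ), NonShrinking B → TotallySignSkew B ∧
      ∀ w : List (Fin n), ∃ b : Module.Basis (Fin n) ℤ (Fin n → ℤ),
        ∀ i, IsGVector B ((seedAt B w).x i) (b i)) ∧
    (∀ n : ℕ, 3 ≤ n → ∃ B : Matrix (Fin n) (Fin n) ℤ, NonShrinking B ∧ ¬ SkewSymmetrizable B ∧
      ∀ w, ¬ Acyclic (mutWord B w)) :=
  ⟨fun _ B h => abundant_basis B h.1 h.2.1 h.2.2, fun n hn => ⟨exN n, exN_nonShrinking n,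
    exN_not_skewSymmetrizable n hn, mutation_cyclic (exN_nonShrinking n) (exN_hasTri n hn)⟩⟩

end Pool.Agent.Results.MP_1d68e1_al.AbundantAnyRank
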