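import Pool.Agent.Lib.MP_1d68e1_al.Family

/-!
# MP_1d68e1_al: g-vectors of a cluster form a basis, rank three, mutation-cyclic case
-/

set_option autoImplicit false

noncomputable section

namespace Pool.Agent.Results.MP_1d68e1_al.RankThreeMutationCyclic

open Pool.Agent.Lib.MP_1d68e1_al

/-- Let `B` be a totally sign-skew-symmetric `3 x 3` matrix which is not mutation-equivalent to an
acyclic one. Then the g-vectors of every cluster of the cluster algebra with principal coefficients
at `B` form a basis of `ℤ³`. Some such matrices are not skew-symmetrizable. -/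
theorem result :
    (∀ B : Matrix (Fin 3) (Fin 3) ℤ, TotallySignSkew B → (∀ w, ¬ Acyclic (mutWord B w)) →
      ∀ w : List (Fin 3), ∃ b : Module.Basis (Fin 3) ℤ (Fin 3 → ℤ),
        ∀ i, IsGVector B ((seedAt B w).x i) (b i)) ∧
    (∃ B : Matrix (Fin 3) (Fin 3) ℤ, TotallySignSkew B ∧ (∀ w, ¬ Acyclic (mutWord B w)) ∧
      ¬ SkewSymmetrizable B) :=
  ⟨rank3_cyclic, exB, exB_class.1, exB_class.2, exB_not_skewSymmetrizable⟩

end Pool.Agent.Results.MP_1d68e1_al.RankThreeMutationCyclic
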