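import Pool.Agent.Lib.MP_1d68e1_al.Red

/-!
# MP_1d68e1_al: mutation-cyclic totally sign-skew-symmetric matrices of rank three
-/

set_option autoImplicit false

noncomputable section

namespace Pool.Agent.Lib.MP_1d68e1_al

/-- cyclic 3 x 3 matrices -/
structure Cyc3 (B : Matrix (Fin 3) (Fin 3) ℤ) : Prop where
  opp : ∀ i j, i ≠ j → B i j * B j i < 0
  cyc : ∀ i j k, i ≠ j → j ≠ k → i ≠ k → 0 < B i j * B j k
  diag : ∀ i, B i i = 0

theorem transGen_lt {α : Type*} (r : α → α → Prop) (f : α → ℕ) (h : ∀ i j, r i j → f i < f j)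
    {i j : α} (hij : Relation.TransGen r i j) : f i < f j := by
  induction hij with
  | single h1 => exact h _ _ h1
  | tail _ h1 ih => exact ih.trans (h _ _ h1)

theorem acyclic_of_order (B : Matrix (Fin 3) (Fin 3) ℤ) (f : Fin 3 → ℕ)
    (h : ∀ i j, 0 < B i j → f i < f j) : Acyclic B :=
  fun i hi => lt_irrefl _ (transGen_lt _ f h hi)

theorem pos_asymm {B : Matrix (Fin 3) (Fin 3) ℤ} (hB : SignSkew B) {i j : Fin 3}
    (h : 0 < B i j) : B j i < 0 := by
  rcases hB i j with h1 | h1
  · omega
  · by_contra h2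
    push Not at h2
    nlinarith

theorem cyc3_of_not_acyclic {B : Matrix (Fin 3) (Fin 3) ℤ} (hB : SignSkew B)
    (hc : ¬ Acyclic B) : Cyc3 B := by
  have hd := hB.diag
  have key : (0 < B 0 1 ∧ 0 < B 1 2 ∧ 0 < B 2 0) ∨ (0 < B 1 0 ∧ 0 < B 2 1 ∧ 0 < B 0 2) := by
    by_contra hcon
    push Not at hcon
    obtain ⟨hc1, hc2⟩ := hcon
    have e01 : 0 < B 0 1 → B 1 0 < 0 := pos_asymm hB
    have e12 : 0 < B 1 2 → B 2 1 < 0 := pos_asymm hB
    have e20 : 0 < B 2 0 → B 0 2 < 0 := pos_asymm hB
    have d0 := hd 0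
    have d1 := hd 1
    have d2 := hd 2
    apply hc
    by_cases a : 0 < B 0 1 <;> by_cases b : 0 < B 1 2 <;> by_cases c : 0 < B 2 0
    · exact absurd c (not_lt.mpr (hc1 a b))
    · apply acyclic_of_order B ![0, 1, 2]
      intro i j hij
      fin_cases i <;> fin_cases j <;> simp at hij ⊢ <;> omega
    · apply acyclic_of_order B ![1, 2, 0]
      intro i j hij
      fin_cases i <;> fin_cases j <;> simp at hij ⊢ <;> omega
    · apply acyclic_of_order B ![0, 2, 1]
      intro i j hij
      fin_cases i <;> fin_cases j <;> simp at hij ⊢ <;> omega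
    · apply acyclic_of_order B ![2, 0, 1]
      intro i j hij
      fin_cases i <;> fin_cases j <;> simp at hij ⊢ <;> omega
    · apply acyclic_of_order B ![1, 0, 2]
      intro i j hij
      fin_cases i <;> fin_cases j <;> simp at hij ⊢ <;> omega
    · apply acyclic_of_order B ![2, 1, 0]
      intro i j hij
      fin_cases i <;> fin_cases j <;> simp at hij ⊢ <;> omega
    · by_cases a' : 0 < B 1 0
      · by_cases b' : 0 < B 2 1
        · have c' := hc2 a' b'
          apply acyclic_of_order B ![2, 1, 0]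
          intro i j hij
          fin_cases i <;> fin_cases j <;> simp at hij ⊢ <;> omega
        · apply acyclic_of_order B ![1, 0, 2]
          intro i j hij
          fin_cases i <;> fin_cases j <;> simp at hij ⊢ <;> omega
      · apply acyclic_of_order B ![0, 2, 1]
        intro i j hij
        fin_cases i <;> fin_cases j <;> simp at hij ⊢ <;> omega
  rcases key with ⟨a, b, c⟩ | ⟨a, b, c⟩
  · have a' := pos_asymm hB a
    have b' := pos_asymm hB b
    have c' := pos_asymm hB c
    refine ⟨?_, ?_, hd⟩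
    · intro i j hij
      fin_cases i <;> fin_cases j <;> simp at hij ⊢ <;>
        first
          | exact mul_neg_of_pos_of_neg (by assumption) (by assumption)
          | exact mul_neg_of_neg_of_pos (by assumption) (by assumption)
    · intro i j k hij hjk hik
      fin_cases i <;> fin_cases j <;> fin_cases k <;> simp at hij hjk hik ⊢ <;>
        first
          | exact mul_pos (by assumption) (by assumption)
          | exact mul_pos_of_neg_of_neg (by assumption) (by assumption)
  · have a' := pos_asymm hB a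
    have b' := pos_asymm hB b
    have c' := pos_asymm hB c
    refine ⟨?_, ?_, hd⟩
    · intro i j hij
      fin_cases i <;> fin_cases j <;> simp at hij ⊢ <;>
        first
          | exact mul_neg_of_pos_of_neg (by assumption) (by assumption)
          | exact mul_neg_of_neg_of_pos (by assumption) (by assumption)
    · intro i j k hij hjk hik
      fin_cases i <;> fin_cases j <;> fin_cases k <;> simp at hij hjk hik ⊢ <;>
        first
          | exact mul_pos (by assumption) (by assumption)
          | exact mul_pos_of_neg_of_neg (by assumption) (by assumption)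

theorem Cyc3.abs_pos {B : Matrix (Fin 3) (Fin 3) ℤ} (h : Cyc3 B) {i j : Fin 3} (hij : i ≠ j) :
    1 ≤ |B i j| := by
  have h1 : B i j ≠ 0 := by
    intro h0
    have := h.opp i j hij
    rw [h0, zero_mul] at this
    exact lt_irrefl _ this
  exact Int.one_le_abs h1

/-- the entry that changes -/
theorem Cyc3.abs_mut {B : Matrix (Fin 3) (Fin 3) ℤ} (h : Cyc3 B) {i j k : Fin 3}
    (hij : i ≠ j) (hik : i ≠ k) (hjk : j ≠ k) (h' : Cyc3 (mutB k B)) :
    |mutB k B i j| = |B i k| * |B k j| - |B i j| := by
  have e := mutB_ne (k := k) B hik hjk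
  have s1 := h.cyc i k j hik hjk.symm hij
  have s2 := h.cyc j i k hij.symm hik hjk
  have s3 := h.opp i j hij
  have t1 := h'.cyc j i k hij.symm hik hjk
  have t2 := h'.opp i j hij
  rw [mutB_right] at t1
  rcases lt_or_gt_of_ne (a := B i k) (b := 0) (by intro h0; rw [h0, zero_mul] at s1; omega)
    with hb | hb
  · have hkj : B k j < 0 := by nlinarith
    have hji : B j i < 0 := by nlinarith
    have hij' : 0 < B i j := by nlinarith
    rw [max_eq_right hb.le, max_eq_left (by linarith : 0 ≤ -B k j)] at e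
    have hm : mutB k B i j < 0 := by
      have : 0 < mutB k B j i := by
        by_contra h0
        push Not at h0
        nlinarith
      by_contra h0
      push Not at h0
      nlinarith
    rw [abs_of_neg hb, abs_of_neg hkj, abs_of_pos hij', abs_of_neg hm, e]
    ring
  · have hkj : 0 < B k j := by
      by_contra h0
      push Not at h0
      nlinarith
    have hji : 0 < B j i := by
      by_contra h0
      push Not at h0
      nlinarith
    have hij' : B i j < 0 := by
      by_contra h0
      push Not at h0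
      nlinarith
    rw [max_eq_left hb.le, max_eq_right (by linarith : -B k j ≤ 0)] at e
    have hm : 0 < mutB k B i j := by
      have : mutB k B j i < 0 := by
        by_contra h0
        push Not at h0
        nlinarith
      by_contra h0
      push Not at h0
      nlinarith
    rw [abs_of_pos hb, abs_of_pos hkj, abs_of_neg hij', abs_of_pos hm, e]
    ring

/-- all reachable matrices are cyclic -/
def AllCyc (B : Matrix (Fin 3) (Fin 3) ℤ) : Prop := ∀ w, Cyc3 (mutWord B w)

theorem AllCyc.self {B : Matrix (Fin 3) (Fin 3) ℤ} (h : AllCyc B) : Cyc3 B := h []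

theorem AllCyc.mut {B : Matrix (Fin 3) (Fin 3) ℤ} (h : AllCyc B) (k : Fin 3) :
    AllCyc (mutB k B) := by
  intro w
  have := h (k :: w)
  exact this

theorem AllCyc.word {B : Matrix (Fin 3) (Fin 3) ℤ} (h : AllCyc B) (w : List (Fin 3)) :
    AllCyc (mutWord B w) := by
  intro w'
  have := h (w ++ w')
  unfold mutWord at *
  rw [List.foldl_append] at this
  exact this

theorem fin3_last (a b c x : Fin 3) (h1 : a ≠ b) (h2 : a ≠ c) (h3 : b ≠ c) (h4 : x ≠ a)
    (h5 : x ≠ b) : x = c := by
  omega

theorem two_others : ∀ k : Fin 3, ∃ a b : Fin 3, k ≠ a ∧ k ≠ b ∧ a ≠ b := by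
  decide

theorem third (i j : Fin 3) (hij : i ≠ j) : ∃ k, i ≠ k ∧ j ≠ k := by
  revert i j
  decide

theorem arith4 (p p' s0 s1 s2 s3 s4 s5 s6 : ℤ) (hp : 1 ≤ p) (hp' : 1 ≤ p') (h0 : 1 ≤ s0)
    (h1 : 1 ≤ s1) (h2 : 1 ≤ s2) (h3 : 1 ≤ s3) (h4 : 1 ≤ s4) (h5 : 1 ≤ s5) (h6 : 1 ≤ s6)
    (e2 : s2 = p' * s1 - s0) (e3 : s3 = p * s2 - s1) (e4 : s4 = p' * s3 - s2)
    (e5 : s5 = p * s4 - s3) (e6 : s6 = p' * s5 - s4) : 4 ≤ p * p' := by
  by_contra hcon
  push Not at hcon
  have b1 : p ≤ 3 := by nlinarith
  have b2 : p' ≤ 3 := by nlinarith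
  have b0 : 0 ≤ p' := by linarith
  interval_cases p <;> interval_cases p' <;> omega

/-- the products of opposite entries are at least four -/
theorem AllCyc.four {B : Matrix (Fin 3) (Fin 3) ℤ} (h : AllCyc B) {i j : Fin 3} (hij : i ≠ j) :
    4 ≤ |B i j| * |B j i| := by
  obtain ⟨k, hik, hjk⟩ := third i j hij
  -- one step
  have step : ∀ (M : Matrix (Fin 3) (Fin 3) ℤ), AllCyc M → ∀ a b : Fin 3, a ≠ b → a ≠ k → b ≠ k →
      AllCyc (mutB a M) ∧ |mutB a M a b| = |M a b| ∧ |mutB a M b a| = |M b a| ∧
      |mutB a M a k| = |M a k| ∧ |mutB a M b k| = |M b a| * |M a k| - |M b k| := by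
    intro M hM a b hab hak hbk
    refine ⟨hM.mut a, ?_, ?_, ?_, ?_⟩
    · rw [mutB_left, abs_neg]
    · rw [mutB_right, abs_neg]
    · rw [mutB_left, abs_neg]
    · exact hM.self.abs_mut hbk hab.symm hak.symm (hM.mut a).self
  obtain ⟨h1, a1, b1, c1, d1⟩ := step B h i j hij hik hjk
  obtain ⟨h2, a2, b2, c2, d2⟩ := step _ h1 j i hij.symm hjk hik
  obtain ⟨h3, a3, b3, c3, d3⟩ := step _ h2 i j hij hik hjk
  obtain ⟨h4, a4, b4, c4, d4⟩ := step _ h3 j i hij.symm hjk hik
  obtain ⟨h5, a5, b5, c5, d5⟩ := step _ h4 i j hij hik hjk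
  have p1 := h.self.abs_pos hik
  have p2 := h.self.abs_pos hjk
  have p3 := h1.self.abs_pos hjk
  have p4 := h2.self.abs_pos hik
  have p5 := h3.self.abs_pos hjk
  have p6 := h4.self.abs_pos hik
  have p7 := h5.self.abs_pos hjk
  have q1 := h.self.abs_pos hij
  have q2 := h.self.abs_pos hij.symm
  have P1 : |mutB j (mutB i B) i j| = |B i j| := b2.trans a1
  have P1' : |mutB j (mutB i B) j i| = |B j i| := a2.trans b1
  have P2 : |mutB i (mutB j (mutB i B)) i j| = |B i j| := a3.trans P1
  have P2' : |mutB i (mutB j (mutB i B)) j i| = |B j i| := b3.trans P1'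
  have P3' : |mutB j (mutB i (mutB j (mutB i B))) j i| = |B j i| := a4.trans P2'
  rw [a1, c1] at d2
  rw [P1', c2] at d3
  rw [P2, c3] at d4
  rw [P3', c4] at d5
  exact arith4 _ _ _ _ _ _ _ _ _ q1 q2 p2 p1 p3 p4 p5 p6 p7 d1 d2 d3 d4 d5

theorem s_pp {t a b : ℤ} (h1 : 0 < t * a) (h2 : 0 < a * b) : 0 < t * b := by
  by_contra h0
  push Not at h0
  have h3 := mul_nonpos_of_nonpos_of_nonneg h0 (mul_self_nonneg a)
  have h4 := mul_pos h1 h2
  have e : (t * a) * (a * b) = (t * b) * (a * a) := by ring
  linarith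

theorem s_pn {t a b : ℤ} (h1 : 0 < t * a) (h2 : a * b < 0) : t * b < 0 := by
  by_contra h0
  push Not at h0
  have h3 := mul_nonneg h0 (mul_self_nonneg a)
  have h4 := mul_neg_of_pos_of_neg h1 h2
  have e : (t * a) * (a * b) = (t * b) * (a * a) := by ring
  linarith

theorem s_np {t a b : ℤ} (h1 : t * a < 0) (h2 : 0 < a * b) : t * b < 0 := by
  by_contra h0
  push Not at h0
  have h3 := mul_nonneg h0 (mul_self_nonneg a)
  have h4 := mul_neg_of_neg_of_pos h1 h2
  have e : (t * a) * (a * b) = (t * b) * (a * a) := by ring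
  linarith

theorem s_nn {t a b : ℤ} (h1 : t * a < 0) (h2 : a * b < 0) : 0 < t * b := by
  by_contra h0
  push Not at h0
  have h3 := mul_nonpos_of_nonpos_of_nonneg h0 (mul_self_nonneg a)
  have h4 := mul_pos_of_neg_of_neg h1 h2
  have e : (t * a) * (a * b) = (t * b) * (a * a) := by ring
  linarith

/-- sign condition on a column -/
theorem mutC_sign {k : Fin 3} (B C : Matrix (Fin 3) (Fin 3) ℤ) (t : ℤ) (ht : t = 1 ∨ t = -1)
    (m : Fin 3) (hs : 0 ≤ t * C m k) {j : Fin 3} (hj : j ≠ k) :
    mutC k B C m j = C m j + C m k * max (t * B k j) 0 := by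
  rw [mutC_ne _ _ hj]
  rcases ht with rfl | rfl
  · rw [one_mul] at hs
    rw [max_eq_left hs, one_mul]
    have h2 := max_sub_max (B k j)
    linear_combination (C m k) * (-h2)
  · have hs' : C m k ≤ 0 := by linarith
    rw [max_eq_right hs']
    have : (-1 : ℤ) * B k j = -B k j := by ring
    rw [this]; ring

/-- The invariant: signs `t`, the last letter `l`, the critical letter `q`. -/
structure Inv (B C : Matrix (Fin 3) (Fin 3) ℤ) (l : Fin 3) : Prop where
  ex : ∃ q r : Fin 3, l ≠ q ∧ l ≠ r ∧ q ≠ r ∧ ∃ t : Fin 3 → ℤ, (∀ i, t i = 1 ∨ t i = -1) ∧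
    t q = -t l ∧ 0 < t q * B q l ∧ (∀ i m, 0 ≤ t i * C m i) ∧
    (∀ m, 2 * (t l * C m l) ≤ |B q l| * (t q * C m q))

theorem sgn_cases {t : ℤ} (ht : t = 1 ∨ t = -1) {b : ℤ} (h : 0 < t * b) : |b| = t * b := by
  rcases ht with rfl | rfl
  · rw [one_mul] at h ⊢; exact abs_of_pos h
  · rw [abs_of_neg (by linarith)]; ring

/-- mutation at a letter that affects only a column of the same sign -/
theorem inv_of_same {B C : Matrix (Fin 3) (Fin 3) ℤ} (hB : AllCyc B) {k j i : Fin 3}
    (hkj : k ≠ j) (hki : k ≠ i) (hji : j ≠ i) (t : Fin 3 → ℤ) (ht : ∀ i, t i = 1 ∨ t i = -1)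
    (htj : t j = t k) (h1 : 0 < t k * B k j) (h2 : t k * B k i < 0)
    (hn : ∀ i m, 0 ≤ t i * C m i) : Inv (mutB k B) (mutC k B C) k := by
  have four := hB.four hkj
  have hopp := hB.self.opp k j hkj
  have ej : ∀ m, mutC k B C m j = C m j + C m k * |B k j| := by
    intro m
    rw [mutC_sign B C (t k) (ht k) m (hn k m) hkj.symm, max_eq_left h1.le, sgn_cases (ht k) h1]
  have ei : ∀ m, mutC k B C m i = C m i := by
    intro m
    rw [mutC_sign B C (t k) (ht k) m (hn k m) hki.symm, max_eq_right h2.le, mul_zero, add_zero]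
  have hs : 0 < t j * -B j k := by
    rw [htj]
    have := s_pn h1 hopp
    linarith
  refine ⟨j, i, hkj, hki, hji, Function.update t k (-t k), ?_, ?_, ?_, ?_, ?_⟩
  · intro a
    by_cases ha : a = k
    · subst ha
      rw [Function.update_self]
      rcases ht a with h | h
      · right; rw [h]
      · left; rw [h]; norm_num
    · rw [Function.update_of_ne ha]; exact ht a
  · rw [Function.update_self, Function.update_of_ne hkj.symm, htj, neg_neg]
  · rw [Function.update_of_ne hkj.symm, mutB_right]
    exact hs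
  · intro a m
    by_cases ha : a = k
    · subst ha
      rw [Function.update_self, mutC_right]
      have := hn a m
      linarith
    · rw [Function.update_of_ne ha]
      by_cases haj : a = j
      · subst haj
        rw [ej, htj]
        have h3 := hn a m
        have h4 := hn k m
        rw [htj] at h3
        have h5 : 0 ≤ (t k * C m k) * |B k a| := mul_nonneg h4 (abs_nonneg _)
        linarith
      · have hai : a = i := fin3_last k j i a hkj hki hji ha haj
        subst hai
        rw [ei]; exact hn a m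
  · intro m
    rw [Function.update_self, Function.update_of_ne hkj.symm, mutC_right, mutB_right, abs_neg, ej,
      htj]
    have h3 := hn j m
    have h4 := hn k m
    rw [htj] at h3
    have h5 : 4 * (t k * C m k) ≤ (|B k j| * |B j k|) * (t k * C m k) :=
      mul_le_mul_of_nonneg_right four h4
    have h6 : 0 ≤ |B j k| * (t k * C m j) := mul_nonneg (abs_nonneg _) h3
    nlinarith

/-- mutation at the critical letter -/
theorem inv_of_crit {B C : Matrix (Fin 3) (Fin 3) ℤ} (hB : AllCyc B) {l q r : Fin 3}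
    (hlq : l ≠ q) (hlr : l ≠ r) (hqr : q ≠ r) (t : Fin 3 → ℤ) (ht : ∀ i, t i = 1 ∨ t i = -1)
    (htq : t q = -t l) (h1 : 0 < t q * B q l) (hn : ∀ i m, 0 ≤ t i * C m i)
    (h3 : ∀ m, 2 * (t l * C m l) ≤ |B q l| * (t q * C m q)) :
    Inv (mutB q B) (mutC q B C) q := by
  have four := hB.four hlq
  have hopp := hB.self.opp q l hlq.symm
  have hcyc := hB.self.cyc r q l hqr.symm hlq.symm hlr.symm
  have hoppr := hB.self.opp q r hqr
  have h2 : t q * B q r < 0 := by
    have h4 := s_pp h1 (by rw [mul_comm]; exact hcyc)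
    exact s_pn h4 (by rw [mul_comm]; exact hoppr)
  have hs : 0 < t q * -B l q := by
    have := s_pn h1 hopp
    linarith
  have el : ∀ m, mutC q B C m l = C m l + C m q * |B q l| := by
    intro m
    rw [mutC_sign B C (t q) (ht q) m (hn q m) hlq, max_eq_left h1.le, sgn_cases (ht q) h1]
  have er : ∀ m, mutC q B C m r = C m r := by
    intro m
    rw [mutC_sign B C (t q) (ht q) m (hn q m) hqr.symm, max_eq_right h2.le, mul_zero, add_zero]
  refine ⟨l, r, hlq.symm, hqr, hlr, fun a => if a = r then t r else if a = l then t q else -t q,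
    ?_, ?_, ?_, ?_, ?_⟩
  · intro a
    dsimp only
    split_ifs
    · exact ht r
    · exact ht q
    · rcases ht q with h | h
      · right; rw [h]
      · left; rw [h]; norm_num
  · dsimp only
    rw [if_neg hlr, if_pos rfl, if_neg hqr, if_neg hlq.symm, neg_neg]
  · dsimp only
    rw [if_neg hlr, if_pos rfl, mutB_right]
    exact hs
  · intro a m
    dsimp only
    by_cases har : a = r
    · subst har
      rw [if_pos rfl, er]; exact hn a m
    · rw [if_neg har]
      by_cases hal : a = l
      · subst hal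
        rw [if_pos rfl, el]
        have h4 := hn a m
        have h5 := h3 m
        have h6 : t a = -t q := by rw [htq, neg_neg]
        rw [h6] at h4 h5
        nlinarith
      · have haq : a = q := fin3_last r l q a hlr.symm hqr.symm hlq har hal
        subst haq
        rw [if_neg hal, mutC_right]
        have := hn a m
        linarith
  · intro m
    dsimp only
    rw [if_neg hqr, if_neg hlq.symm, if_neg hlr, if_pos rfl, mutC_right, mutB_right, abs_neg, el]
    have h4 := hn l m
    have h5 := h3 m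
    have h6 : t l = -t q := by rw [htq, neg_neg]
    rw [h6] at h4 h5
    have h7 := hn q m
    have h8 : 4 * (t q * C m q) ≤ (|B l q| * |B q l|) * (t q * C m q) :=
      mul_le_mul_of_nonneg_right four h7
    have h9 : |B l q| * (2 * (-t q * C m l)) ≤ |B l q| * (|B q l| * (t q * C m q)) :=
      mul_le_mul_of_nonneg_left h5 (abs_nonneg _)
    nlinarith

/-- all columns are sign coherent -/
theorem Inv.coherent {B C : Matrix (Fin 3) (Fin 3) ℤ} {l : Fin 3} (h : Inv B C l) (k : Fin 3) :
    (∀ m, 0 ≤ C m k) ∨ (∀ m, C m k ≤ 0) := by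
  obtain ⟨q, r, _, _, _, t, ht, _, _, hn, _⟩ := h.ex
  rcases ht k with h1 | h1
  · left
    intro m
    have := hn k m
    rw [h1, one_mul] at this
    exact this
  · right
    intro m
    have := hn k m
    rw [h1] at this
    linarith

/-- the invariant is kept -/
theorem Inv.mutate {B C : Matrix (Fin 3) (Fin 3) ℤ} (hB : AllCyc B) {l k : Fin 3}
    (h : Inv B C l) (hk : l ≠ k) : Inv (mutB k B) (mutC k B C) k := by
  obtain ⟨q, r, hlq, hlr, hqr, t, ht, htq, h1, hn, h3⟩ := h.ex
  by_cases hkq : k = q
  · subst hkq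
    exact inv_of_crit hB hlq hlr hqr t ht htq h1 hn h3
  · have hkr : k = r := fin3_last l q r k hlq hlr hqr (Ne.symm hk) hkq
    subst hkr
    have c1 := hB.self.cyc q l k hlq.symm hlr hqr
    have c2 := hB.self.cyc l k q hlr hqr.symm hlq
    have o1 := hB.self.opp k l hlr.symm
    have sl0 : 0 < t q * B l k := s_pp h1 c1
    have sq : 0 < t q * B k q := s_pp sl0 c2
    have sl : t q * B k l < 0 := s_pn sl0 (by rw [mul_comm]; exact o1)
    by_cases hs : t k = t q
    · exact inv_of_same hB hqr.symm hlr.symm hlq.symm t ht hs.symm (by rw [hs]; exact sq)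
        (by rw [hs]; exact sl) hn
    · have hs' : t k = -t q := by
        rcases ht k with a | a <;> rcases ht q with b | b
        · exact absurd (a.trans b.symm) hs
        · rw [a, b, neg_neg]
        · rw [a, b]
        · exact absurd (a.trans b.symm) hs
      have hl : t l = t k := by rw [hs', htq, neg_neg]
      refine inv_of_same hB hlr.symm hqr.symm hlq t ht hl ?_ ?_ hn
      · rw [hs']; linarith
      · rw [hs']; linarith

/-- the first mutation -/
theorem inv_first {B : Matrix (Fin 3) (Fin 3) ℤ} (hB : AllCyc B) (k : Fin 3) :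
    Inv (mutB k B) (mutC k B 1) k := by
  have h1 : ∀ i m : Fin 3, (0 : ℤ) ≤ (fun _ => 1 : Fin 3 → ℤ) i * (1 : Matrix (Fin 3) (Fin 3) ℤ) m i := by
    intro i m
    rw [Matrix.one_apply]
    split_ifs <;> norm_num
  obtain ⟨j, hkj, hj⟩ : ∃ j, k ≠ j ∧ 0 < B k j := by
    obtain ⟨a, b, hka, hkb, hab⟩ := two_others k
    rcases lt_or_ge 0 (B k a) with h | h
    · exact ⟨a, hka, h⟩
    · have c1 := hB.self.cyc a k b hka.symm hkb hab
      have o1 := hB.self.opp k a hka
      refine ⟨b, hkb, ?_⟩
      have hne : B k a ≠ 0 := by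
        intro h0
        rw [h0, zero_mul] at o1
        exact lt_irrefl _ o1
      have h1 : (1 : ℤ) * B k a < 0 := by
        rw [one_mul]; exact lt_of_le_of_ne h hne
      have h2 := s_pp (s_nn h1 o1) c1
      rwa [one_mul] at h2
  obtain ⟨i, hki, hji⟩ := third k j hkj
  have c1 := hB.self.cyc i k j hki.symm hkj hji.symm
  have o1 := hB.self.opp k i hki
  have hi : B k i < 0 := by
    have h3 : (0 : ℤ) < 1 * B k j := by rw [one_mul]; exact hj
    have h4 := s_pn (s_pp h3 (by rw [mul_comm]; exact c1)) (by rw [mul_comm]; exact o1)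
    rwa [one_mul] at h4
  exact inv_of_same hB hkj hki hji (fun _ => 1) (fun _ => Or.inl rfl) rfl (by simpa using hj)
    (by simpa using hi) h1

theorem coherent_RW {B0 : Matrix (Fin 3) (Fin 3) ℤ} (hB : AllCyc B0) :
    ∀ d last, RW B0 d last → (∀ l, last = some l → Inv d.B d.C l) ∧
      (last = none → d = Dat.init B0) := by
  intro d last h
  induction h with
  | base => exact ⟨fun l hl => (by simp at hl), fun _ => rfl⟩
  | step d last k h hk ih =>
    refine ⟨fun l hl => ?_, fun hn => by simp at hn⟩
    have hkl : k = l := Option.some.inj hl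
    subst hkl
    obtain ⟨w, hw⟩ := h.word
    cases last with
    | none =>
      have hd := ih.2 rfl
      subst hd
      exact inv_first hB k
    | some l' =>
      have h1 := ih.1 l' rfl
      refine Inv.mutate ?_ h1 ?_
      · rw [hw]; exact hB.word w
      · intro h0
        exact hk (by rw [h0])

/-- **Rank three, mutation-cyclic**: the g-vectors of every cluster form a basis. -/
theorem rank3_cyclic (B : Matrix (Fin 3) (Fin 3) ℤ) (hB : TotallySignSkew B)
    (hc : ∀ w, ¬ Acyclic (mutWord B w)) (w : List (Fin 3)) :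
    ∃ b : Module.Basis (Fin 3) ℤ (Fin 3 → ℤ), ∀ i, IsGVector B ((seedAt B w).x i) (b i) := by
  have hall : AllCyc B := fun w => cyc3_of_not_acyclic (hB w) (hc w)
  refine basis_of_coherent B hB ?_ w
  intro d last h k _
  cases last with
  | none =>
    have hd := (coherent_RW hall d none h).2 rfl
    subst hd
    left
    intro m
    show (0 : ℤ) ≤ (1 : Matrix (Fin 3) (Fin 3) ℤ) m k
    rw [Matrix.one_apply]
    split_ifs <;> norm_num
  | some l => exact ((coherent_RW hall d _ h).1 l rfl).coherent k

end Pool.Agent.Lib.MP_1d68e1_al
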