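import Pool.Agent.Lib.MP_1d68e1_al.Hom

/-!
# MP_1d68e1_al: reduced words, and the determinant of the matrix of degrees
-/

set_option autoImplicit false

noncomputable section

namespace Pool.Agent.Lib.MP_1d68e1_al

variable {n : ℕ}

theorem SignSkew.diag {B : Matrix (Fin n) (Fin n) ℤ} (h : SignSkew B) (i : Fin n) : B i i = 0 := by
  rcases h i i with h1 | h1
  · exact h1.1
  · exact absurd h1 (not_lt.mpr (mul_self_nonneg _))

theorem mutB_mutB (k : Fin n) (B : Matrix (Fin n) (Fin n) ℤ) : mutB k (mutB k B) = B := by
  funext i j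
  by_cases hi : i = k
  · subst hi; rw [mutB_left, mutB_left, neg_neg]
  by_cases hj : j = k
  · subst hj; rw [mutB_right, mutB_right, neg_neg]
  rw [mutB_ne _ hi hj, mutB_ne _ hi hj, mutB_right, mutB_left, neg_neg]
  have h1 := max_sub_max (B i k)
  have h2 := max_sub_max (B k j)
  linear_combination (B k j) * h1 - (B i k) * h2

theorem mutC_mutC (k : Fin n) (B C : Matrix (Fin n) (Fin n) ℤ) :
    mutC k (mutB k B) (mutC k B C) = C := by
  funext i j
  by_cases hj : j = k
  · subst hj; rw [mutC_right, mutC_right, neg_neg]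
  rw [mutC_ne _ _ hj, mutC_ne _ _ hj, mutC_right, mutB_left, neg_neg]
  have h1 := max_sub_max (C i k)
  have h2 := max_sub_max (B k j)
  linear_combination (B k j) * h1 - (C i k) * h2

theorem Dat.mutate_mutate (B0 : Matrix (Fin n) (Fin n) ℤ) (d : Dat n) (h : d.Rel B0)
    (hd : ∀ i, d.B i i = 0) (k : Fin n) : (d.mutate B0 k).mutate B0 k = d := by
  have hB := mutB_mutB k d.B
  have hC := mutC_mutC k d.B d.C
  have hG : Function.update (Function.update d.G k (newG B0 d k)) k
      (newG B0 (d.mutate B0 k) k) = d.G := by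
    rw [Function.update_idem]
    funext i
    by_cases hi : i = k
    · subst hi
      rw [Function.update_self]
      funext r
      show -(Function.update d.G i (newG B0 d i) i r) +
        ∑ l, max (mutB i d.B l i) 0 * Function.update d.G i (newG B0 d i) l r -
        ∑ j, max (mutC i d.B d.C j i) 0 * B0 r j = d.G i r
      have h1 : ∀ l, max (mutB i d.B l i) 0 * Function.update d.G i (newG B0 d i) l r =
          max (-d.B l i) 0 * d.G l r := by
        intro l
        rw [mutB_right]
        by_cases hl : l = i
        · subst hl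
          rw [hd]; simp
        · rw [Function.update_of_ne hl]
      have h2 : ∀ j, max (mutC i d.B d.C j i) 0 * B0 r j = max (-d.C j i) 0 * B0 r j := by
        intro j
        rw [mutC_right]
      rw [Finset.sum_congr rfl fun l _ => h1 l, Finset.sum_congr rfl fun j _ => h2 j,
        Function.update_self]
      unfold newG
      have h3 := h i r
      have h4 : ∑ j, d.B j i * d.G j r =
          ∑ j, max (d.B j i) 0 * d.G j r - ∑ j, max (-d.B j i) 0 * d.G j r := by
        rw [← Finset.sum_sub_distrib]
        refine Finset.sum_congr rfl fun j _ => ?_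
        rw [← sub_mul, max_sub_max]
      have h5 : ∑ j, d.C j i * B0 r j =
          ∑ j, max (d.C j i) 0 * B0 r j - ∑ j, max (-d.C j i) 0 * B0 r j := by
        rw [← Finset.sum_sub_distrib]
        refine Finset.sum_congr rfl fun j _ => ?_
        rw [← sub_mul, max_sub_max]
      linarith
    · rw [Function.update_of_ne hi]
  show (⟨mutB k (mutB k d.B), mutC k (mutB k d.B) (mutC k d.B d.C),
    Function.update (Function.update d.G k (newG B0 d k)) k
      (newG B0 (d.mutate B0 k) k)⟩ : Dat n) = d
  rw [hB, hC, hG]

/-- Data reachable by a reduced word; the second argument is its last letter. -/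
inductive RW (B0 : Matrix (Fin n) (Fin n) ℤ) : Dat n → Option (Fin n) → Prop
  | base : RW B0 (Dat.init B0) none
  | step (d : Dat n) (last : Option (Fin n)) (k : Fin n) (h : RW B0 d last) (hk : last ≠ some k) :
      RW B0 (d.mutate B0 k) (some k)

theorem mutWord_concat (B : Matrix (Fin n) (Fin n) ℤ) (w : List (Fin n)) (k : Fin n) :
    mutWord B (w ++ [k]) = mutB k (mutWord B w) := by
  unfold mutWord
  rw [List.foldl_append]; rfl

theorem RW.word {B0 : Matrix (Fin n) (Fin n) ℤ} {d : Dat n} {last : Option (Fin n)}
    (h : RW B0 d last) : ∃ w, d.B = mutWord B0 w := by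
  induction h with
  | base => exact ⟨[], rfl⟩
  | step d last k _ _ ih =>
    obtain ⟨w, hw⟩ := ih
    refine ⟨w ++ [k], ?_⟩
    rw [mutWord_concat, ← hw]; rfl

theorem RW.rel {B0 : Matrix (Fin n) (Fin n) ℤ} (hB : TotallySignSkew B0) {d : Dat n}
    {last : Option (Fin n)} (h : RW B0 d last) : d.Rel B0 := by
  induction h with
  | base => exact Dat.rel_init B0
  | step d last k h _ ih =>
    obtain ⟨w, hw⟩ := h.word
    refine Dat.rel_mutate B0 d ih (fun i => ?_) k
    rw [hw]; exact (hB w).diag i

theorem RW.diag {B0 : Matrix (Fin n) (Fin n) ℤ} (hB : TotallySignSkew B0) {d : Dat n}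
    {last : Option (Fin n)} (h : RW B0 d last) (i : Fin n) : d.B i i = 0 := by
  obtain ⟨w, hw⟩ := h.word
  rw [hw]; exact (hB w).diag i

/-- every word leads to a reduced one -/
theorem exists_RW (B0 : Matrix (Fin n) (Fin n) ℤ) (hB : TotallySignSkew B0)
    (w : List (Fin n)) : ∃ d last, RW B0 d last ∧ Match B0 (seedAt B0 w) d := by
  induction w using List.reverseRecOn with
  | nil => exact ⟨Dat.init B0, none, RW.base, match_init B0⟩
  | append_singleton w k ih =>
    obtain ⟨d, last, h, hm⟩ := ih
    have hm' := hm.mutate (h.rel hB) k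
    have hw : seedAt B0 (w ++ [k]) = (seedAt B0 w).mutate k := by
      unfold seedAt
      rw [List.foldl_append]; rfl
    rw [hw]
    by_cases hk : last = some k
    · cases h with
      | base => simp at hk
      | step d' last' k' h' hk' =>
        have hkk : k' = k := Option.some.inj hk
        subst hkk
        refine ⟨d', last', h', ?_⟩
        rw [Dat.mutate_mutate B0 d' (h'.rel hB) (h'.diag hB)] at hm'
        exact hm'
    · exact ⟨_, _, RW.step d last k h hk, hm'⟩

/-- the determinant changes its sign if the column `k` of `C` is sign coherent -/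
theorem det_mutate (B0 : Matrix (Fin n) (Fin n) ℤ) (d : Dat n) (h : d.Rel B0)
    (hd : ∀ i, d.B i i = 0) (k : Fin n)
    (hs : (∀ m, 0 ≤ d.C m k) ∨ (∀ m, d.C m k ≤ 0)) :
    Matrix.det (Matrix.of (d.mutate B0 k).G) = -Matrix.det (Matrix.of d.G) := by
  classical
  have key : ∀ a : Fin n → ℤ, a k = 0 → (newG B0 d k = fun r => -d.G k r + ∑ i, a i * d.G i r) →
      Matrix.det (Matrix.of (d.mutate B0 k).G) = -Matrix.det (Matrix.of d.G) := by
    intro a ha hnew
    have h1 : Matrix.of (d.mutate B0 k).G = (Matrix.of d.G).updateRow k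
        (∑ i, (if i = k then (-1 : ℤ) else a i) • (Matrix.of d.G) i) := by
      funext i r
      show Function.update d.G k (newG B0 d k) i r = _
      by_cases hi : i = k
      · subst hi
        rw [Function.update_self, Matrix.updateRow_self, hnew]
        simp only [Finset.sum_apply, Pi.smul_apply, Matrix.of_apply, smul_eq_mul]
        have h2 : ∀ j, (if j = i then (-1 : ℤ) else a j) * d.G j r =
            a j * d.G j r + if j = i then -d.G i r else 0 := by
          intro j
          by_cases hj : j = i
          · subst hj; rw [if_pos rfl, if_pos rfl, ha]; ring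
          · rw [if_neg hj, if_neg hj]; ring
        rw [Finset.sum_congr rfl fun j _ => h2 j, Finset.sum_add_distrib,
          Finset.sum_ite_eq' Finset.univ i, if_pos (Finset.mem_univ i)]
        ring
      · rw [Function.update_of_ne hi, Matrix.updateRow_ne hi]; rfl
    rw [h1, Matrix.det_updateRow_sum, if_pos rfl]
    simp
  rcases hs with hs | hs
  · refine key (fun i => max (-d.B i k) 0) (by simp [hd]) ?_
    funext r
    unfold newG
    have h3 := h k r
    have h4 : ∑ j, d.B j k * d.G j r =
        ∑ j, max (d.B j k) 0 * d.G j r - ∑ j, max (-d.B j k) 0 * d.G j r := by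
      rw [← Finset.sum_sub_distrib]
      refine Finset.sum_congr rfl fun j _ => ?_
      rw [← sub_mul, max_sub_max]
    have h5 : ∑ j, d.C j k * B0 r j = ∑ j, max (d.C j k) 0 * B0 r j := by
      refine Finset.sum_congr rfl fun j _ => ?_
      rw [max_eq_left (hs j)]
    linarith
  · refine key (fun i => max (d.B i k) 0) (by simp [hd]) ?_
    funext r
    unfold newG
    have h5 : ∑ j, max (d.C j k) 0 * B0 r j = 0 := by
      refine Finset.sum_eq_zero fun j _ => ?_
      rw [max_eq_right (hs j), zero_mul]
    rw [h5, sub_zero]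

theorem det_init (B0 : Matrix (Fin n) (Fin n) ℤ) :
    Matrix.det (Matrix.of (Dat.init B0).G) = 1 := by
  have : Matrix.of (Dat.init B0).G = (1 : Matrix (Fin n) (Fin n) ℤ) := by
    funext i j
    show (Pi.single i (1 : ℤ) : Fin n → ℤ) j = _
    rw [Matrix.one_apply, Pi.single_apply]
    by_cases h : i = j
    · rw [if_pos h, if_pos h.symm]
    · rw [if_neg h, if_neg (Ne.symm h)]
  rw [this, Matrix.det_one]

/-- If all columns that occur are sign coherent, the g-vectors of every cluster form a basis. -/
theorem basis_of_coherent (B0 : Matrix (Fin n) (Fin n) ℤ) (hB : TotallySignSkew B0)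
    (hs : ∀ d last, RW B0 d last → ∀ k, last ≠ some k →
      (∀ m, 0 ≤ d.C m k) ∨ (∀ m, d.C m k ≤ 0)) (w : List (Fin n)) :
    ∃ b : Module.Basis (Fin n) ℤ (Fin n → ℤ), ∀ i, IsGVector B0 ((seedAt B0 w).x i) (b i) := by
  obtain ⟨d, last, h, hm⟩ := exists_RW B0 hB w
  have hdet : IsUnit (Matrix.det (Matrix.of d.G)) := by
    clear hm
    induction h with
    | base => rw [det_init]; exact isUnit_one
    | step d last k h hk ih =>
      rw [det_mutate B0 d (h.rel hB) (h.diag hB) k (hs d last h k hk)]
      exact ih.neg
  have h1 : IsUnit ((Pi.basisFun ℤ (Fin n)).det d.G) := by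
    have h2 : (Pi.basisFun ℤ (Fin n)).det d.G = Matrix.det (Matrix.of d.G) :=
      Pi.basisFun_det_apply _
    rw [h2]; exact hdet
  rw [← Module.Basis.is_basis_iff_det] at h1
  refine ⟨Module.Basis.mk h1.1 h1.2.ge, fun i => ?_⟩
  rw [Module.Basis.mk_apply]
  exact (hm.hG i).isGVector

end Pool.Agent.Lib.MP_1d68e1_al
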